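import Pool.Agent.Y773.HG.Defs

/-!
# Project AR (owner helper149): completed L-functions of unramified characters and Dedekind zeta
functions

Statements of the building blocks.
-/

set_option autoImplicit false

open NumberField Complex Filter Topology

namespace Pool.Agent.Y149.AR

open Pool.Agent.Y773 Pool.Agent.Y773.G

open Classical in
/-- the indicator function of the ideal `𝔟` -/
noncomputable def ind {K : Type} [Field K] [NumberField K] (𝔟 : Ideal (𝓞 K)) (x : 𝓞 K) : ℂ :=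
  if x ∈ 𝔟 then 1 else 0

/-- FT : the finite Fourier transform of the indicator function of an ideal -/
def S_FT : Prop := ∀ (K : Type) [Field K] [NumberField K] (𝔟 𝔟' : Ideal (𝓞 K)) (m D : ℕ),
  0 < m → 0 < D → 𝔟' * (𝔟 * differentIdeal ℤ (𝓞 K)) = Ideal.span {((m * D : ℕ) : 𝓞 K)} →
  (m : 𝓞 K) ∈ 𝔟 → (D : 𝓞 K) ∈ differentIdeal ℤ (𝓞 K) → ∀ x : 𝓞 K,
    FT D m (ind 𝔟) x = (m : ℂ) ^ (Module.finrank ℚ K) / (Ideal.absNorm 𝔟 : ℂ) * ind 𝔟' x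

/-- `ψ` is an everywhere (at the finite places) unramified character of signature `e`, possibly the
trivial one -/
structure IsUnr {K : Type} [Field K] [NumberField K] (e : InfinitePlace K → ℕ)
    (ψ : Ideal (𝓞 K) →*₀ ℂ) : Prop where
  sig_le : ∀ w, e w ≤ 1
  cpx : ∀ w : InfinitePlace K, w.IsComplex → e w = 0
  ne : ∀ 𝔞 : Ideal (𝓞 K), 𝔞 ≠ ⊥ → ψ 𝔞 ≠ 0
  sig : ∀ x : 𝓞 K, x ≠ 0 → ψ (Ideal.span {x}) = sg e (x : K)

/-- UNR : the functional equation of unramified characters, the trivial one included -/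
def S_UNR : Prop := ∀ (K : Type) [Field K] [NumberField K] (e : InfinitePlace K → ℕ)
  (ψ : Ideal (𝓞 K) →*₀ ℂ), IsUnr e ψ →
  ∃ (Ξ : ℂ → ℂ) (w : ℂ), Differentiable ℂ Ξ ∧
    (∀ s : ℂ, 1 < s.re → Ξ s = s * (s - 1) *
      (GG ((Ideal.absNorm (differentIdeal ℤ (𝓞 K)) : ℕ) : ℝ) (ex e) s * LI ψ s)) ∧
    (∀ s : ℂ, Ξ s = w * (starRingEnd ℂ) (Ξ (1 - (starRingEnd ℂ) s))) ∧
    ∀ a b : ℝ, ∃ C : ℝ, ∀ s : ℂ, a ≤ s.re → s.re ≤ b → ‖Ξ s‖ ≤ C * (1 + ‖s‖) ^ 2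

/-- RAM : the functional equation of ramified characters -/
def S_RAM : Prop := ∀ (K : Type) [Field K] [NumberField K] (𝔣 : Ideal (𝓞 K))
  (e : InfinitePlace K → ℕ) (ψ : Ideal (𝓞 K) →*₀ ℂ), G.IsPrimChar K 𝔣 ψ → G.IsModChar 𝔣 e ψ →
  ∃ (Ξ : ℂ → ℂ) (w : ℂ), Differentiable ℂ Ξ ∧
    (∀ s : ℂ, 1 < s.re → Ξ s =
      GG ((Ideal.absNorm 𝔣 * Ideal.absNorm (differentIdeal ℤ (𝓞 K)) : ℕ) : ℝ) (ex e) s * LI ψ s) ∧
    (∀ s : ℂ, Ξ s = w * (starRingEnd ℂ) (Ξ (1 - (starRingEnd ℂ) s))) ∧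
    ∀ a b : ℝ, ∃ C : ℝ, ∀ s : ℂ, a ≤ s.re → s.re ≤ b → ‖Ξ s‖ ≤ C

end Pool.Agent.Y149.AR
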