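import Pool.Agent.Y149.AR.Good

/-!
# Completed L-functions with several gamma factors are small in vertical strips
-/

set_option autoImplicit false

open Filter Topology Set Complex

namespace Pool.Agent.Y149.AR

open Pool.Agent.Y922.AQ

/-- finite order in vertical strips -/
def FinOrder (Λ : ℂ → ℂ) : Prop :=
  ∀ B : ℝ, ∃ (A : ℝ) (m : ℕ), ∀ s : ℂ, |s.re| ≤ B → ‖Λ s‖ ≤ Real.exp (A * (1 + ‖s‖) ^ m)

theorem gamma3 (B : ℝ) (hB : 2 ≤ B) : ∃ G : ℝ, 1 ≤ G ∧ ∀ s : ℂ, s.re = B →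
    ‖Gammaℝ s‖ ≤ G / (1 + |s.im| / 2) ^ 3 := by
  have hpi := Real.pi_pos
  obtain ⟨g, hg⟩ : ∃ g : ℝ, g = 64 * Real.Gamma ((B + 4) / 2 + 3) := ⟨_, rfl⟩
  have hg0 : 0 ≤ g := by
    rw [hg]
    have := Real.Gamma_pos_of_pos (s := (B + 4) / 2 + 3) (by linarith)
    positivity
  refine ⟨1 + (2 * Real.pi) ^ 2 * g, by nlinarith [mul_nonneg (sq_nonneg (2 * Real.pi)) hg0], fun s hs => ?_⟩
  obtain ⟨u, hu⟩ : ∃ u : ℝ, u = 1 + |s.im| / 2 := ⟨_, rfl⟩
  have hu1 : 1 ≤ u := by have := abs_nonneg s.im; rw [hu]; linarith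
  have hu0 : 0 < u := by linarith
  have hn : ∀ z : ℂ, B ≤ z.re → z.im = s.im → u ≤ ‖z‖ := by
    intro z h1 h2
    have h3 := abs_re_le_norm z
    have h4 := abs_im_le_norm z
    have h5 := le_abs_self z.re
    rw [h2] at h4
    rw [hu]
    linarith
  have hs2 : (s + 2).re = B + 2 := by rw [add_re, hs]; norm_num
  have h1 : s ≠ 0 := by
    rintro rfl
    rw [zero_re] at hs
    linarith
  have h2 : s + 2 ≠ 0 := by
    intro h
    rw [h, zero_re] at hs2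
    linarith
  have e1 := Gammaℝ_add_two h1
  have e2 := Gammaℝ_add_two h2
  have n1 := hn s hs.ge rfl
  have n2 := hn (s + 2) (by linarith) (by simp)
  have e3 : ‖Gammaℝ (s + 2 + 2)‖ = ‖Gammaℝ s‖ * ‖s‖ * ‖s + 2‖ / (2 * Real.pi) ^ 2 := by
    rw [e2, e1]
    simp only [norm_div, norm_mul, Complex.norm_real, Real.norm_of_nonneg hpi.le, Complex.norm_ofNat]
    field_simp
  have h3 := Y312.AQ.gammaR_line (B + 4) (by linarith) (s + 2 + 2) (by
    rw [add_re, hs2]; norm_num; ring)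
  have h4 : (s + 2 + 2).im = s.im := by simp
  rw [h4, ← hu, ← hg, e3] at h3
  rw [← hu, le_div_iff₀ (by positivity)]
  have h5 : ‖Gammaℝ s‖ * ‖s‖ * ‖s + 2‖ ≤ g / u * (2 * Real.pi) ^ 2 := by
    rwa [div_le_iff₀ (by positivity)] at h3
  have h6 : ‖Gammaℝ s‖ * u * u ≤ ‖Gammaℝ s‖ * ‖s‖ * ‖s + 2‖ := by gcongr
  calc ‖Gammaℝ s‖ * u ^ 3 = (‖Gammaℝ s‖ * u * u) * u := by ring
    _ ≤ (g / u * (2 * Real.pi) ^ 2) * u := by
      refine mul_le_mul_of_nonneg_right (h6.trans h5) hu0.le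
    _ = (2 * Real.pi) ^ 2 * g := by field_simp
    _ ≤ 1 + (2 * Real.pi) ^ 2 * g := by linarith

theorem prod_line {N a b : ℕ} (hN : 0 < N) (hab : 1 ≤ a + b) {D : ℂ → ℂ} {M : ℝ}
    (hD : ∀ s : ℂ, 2 ≤ s.re → ‖D s‖ ≤ M) (B : ℝ) (hB : 2 ≤ B) :
    ∃ C : ℝ, 0 ≤ C ∧ ∀ s : ℂ, s.re = B → (1 + ‖s‖) ^ 3 * ‖prodForm N a b D s‖ ≤ C := by
  have hM : 0 ≤ M := (norm_nonneg _).trans (hD 2 (by norm_num))
  obtain ⟨g₁, hg₁, hG1⟩ := gamma3 B hB
  obtain ⟨g₂, hg₂, hG2⟩ := gamma3 (B + 1) (by linarith)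
  obtain ⟨g, hg⟩ : ∃ g : ℝ, g = max g₁ g₂ := ⟨_, rfl⟩
  have hg1 : 1 ≤ g := by rw [hg]; exact hg₁.trans (le_max_left _ _)
  refine ⟨(2 * B) ^ 3 * ((N : ℝ) ^ (B / 2) * g ^ (a + b) * M), by positivity, fun s hs => ?_⟩
  obtain ⟨u, hu⟩ : ∃ u : ℝ, u = 1 + |s.im| / 2 := ⟨_, rfl⟩
  have hu1 : 1 ≤ u := by have := abs_nonneg s.im; rw [hu]; linarith
  have hu0 : 0 < u := by linarith
  have h1 : ‖Gammaℝ s‖ ≤ g / u ^ 3 := by
    refine (hG1 s hs).trans ?_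
    rw [← hu]
    have : g₁ ≤ g := by rw [hg]; exact le_max_left _ _
    gcongr
  have h2 : ‖Gammaℝ (s + 1)‖ ≤ g / u ^ 3 := by
    have hs1 : (s + 1).re = B + 1 := by simp [hs]
    have h3 := hG2 (s + 1) hs1
    have h4 : (s + 1).im = s.im := by simp
    rw [h4, ← hu] at h3
    refine h3.trans ?_
    have : g₂ ≤ g := by rw [hg]; exact le_max_right _ _
    gcongr
  have h3 : ‖Gammaℝ s‖ ^ a * ‖Gammaℝ (s + 1)‖ ^ b ≤ g ^ (a + b) / u ^ 3 := by
    calc ‖Gammaℝ s‖ ^ a * ‖Gammaℝ (s + 1)‖ ^ b ≤ (g / u ^ 3) ^ a * (g / u ^ 3) ^ b := by gcongr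
      _ = g ^ (a + b) / (u ^ 3) ^ (a + b) := by rw [← pow_add, div_pow]
      _ ≤ g ^ (a + b) / u ^ 3 := by
        have h5 : u ^ 3 ≤ (u ^ 3) ^ (a + b) := le_self_pow₀ (one_le_pow₀ hu1) (by omega)
        gcongr
  have hsn : 1 + ‖s‖ ≤ 2 * B * u := by
    have h5 := norm_le_abs_re_add_abs_im s
    rw [hs, abs_of_nonneg (by linarith)] at h5
    have h6 := abs_nonneg s.im
    have h7 : |s.im| = 2 * (u - 1) := by rw [hu]; ring
    nlinarith
  unfold prodForm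
  rw [norm_mul, norm_mul, norm_mul, norm_pow, norm_pow, Complex.norm_natCast_cpow_of_pos hN]
  have e3 : (s / 2).re = B / 2 := by simp [hs]
  rw [e3]
  have h8 := hD s (by linarith)
  have hNB : 0 ≤ (N : ℝ) ^ (B / 2) := by positivity
  calc (1 + ‖s‖) ^ 3 * ((N : ℝ) ^ (B / 2) * ‖Gammaℝ s‖ ^ a * ‖Gammaℝ (s + 1)‖ ^ b * ‖D s‖)
      = (1 + ‖s‖) ^ 3 * ((N : ℝ) ^ (B / 2) * (‖Gammaℝ s‖ ^ a * ‖Gammaℝ (s + 1)‖ ^ b) * ‖D s‖) := by ring
    _ ≤ (2 * B * u) ^ 3 * ((N : ℝ) ^ (B / 2) * (g ^ (a + b) / u ^ 3) * M) := by gcongr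
    _ = (2 * B) ^ 3 * ((N : ℝ) ^ (B / 2) * g ^ (a + b) * M) := by field_simp

theorem strip_of {N a b : ℕ} (hN : 0 < N) (hab : 1 ≤ a + b) {D Λ q : ℂ → ℂ} (hD : LogBd D)
    (hq : ∀ s : ℂ, ‖q s‖ ≤ (1 + ‖s‖) ^ 2)
    (heq : ∀ s : ℂ, 1 < s.re → Λ s = q s * prodForm N a b D s) (hdiff : Differentiable ℂ Λ)
    (hord : FinOrder Λ) (hfe : ∃ W : ℂ, ∀ s, ‖Λ (1 - s)‖ = ‖W‖ * ‖Λ ((starRingEnd ℂ) s)‖) :
    ∀ c b : ℝ, 0 < c → ∃ T : ℝ, ∀ s : ℂ, |s.re| ≤ b → T ≤ |s.im| → ‖Λ s‖ < c := by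
  intro c b' hc
  obtain ⟨W, hW⟩ := hfe
  obtain ⟨B, hB⟩ : ∃ B : ℝ, B = |b'| + 2 := ⟨_, rfl⟩
  obtain ⟨A, m, hA⟩ := hord B
  have hb0 := abs_nonneg b'
  have hB2 : 2 ≤ B := by linarith
  obtain ⟨ell, M, hell⟩ := hD
  obtain ⟨C₁, hC₁0, hC₁'⟩ := prod_line hN hab (D := D) (M := Real.exp M) (fun s hs => by
    obtain ⟨-, h2, h3⟩ := hell s (by linarith)
    rw [← h2, Complex.norm_exp]
    exact Real.exp_le_exp.2 ((re_le_norm _).trans h3)) B hB2
  have hC₁ : ∀ s : ℂ, s.re = B → (1 + ‖s‖) * ‖Λ s‖ ≤ C₁ := by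
    intro s hs
    rw [heq s (by linarith), norm_mul]
    refine le_trans ?_ (hC₁' s hs)
    have h1 := hq s
    have h2 := norm_nonneg s
    calc (1 + ‖s‖) * (‖q s‖ * ‖prodForm N a b D s‖)
        ≤ (1 + ‖s‖) * ((1 + ‖s‖) ^ 2 * ‖prodForm N a b D s‖) := by gcongr
      _ = (1 + ‖s‖) ^ 3 * ‖prodForm N a b D s‖ := by ring
  obtain ⟨C, hC⟩ : ∃ C : ℝ, C = C₁ + ‖W‖ * C₁ := ⟨_, rfl⟩
  have hWn := norm_nonneg W
  have hC1 : C₁ ≤ C := by
    have := mul_nonneg hWn hC₁0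
    linarith
  have hC2 : ‖W‖ * C₁ ≤ C := by linarith
  have hC0 : 0 ≤ C := hC₁0.trans hC1
  have key : ∀ s : ℂ, 1 - B ≤ s.re → s.re ≤ B → ‖s * Λ s‖ ≤ C := by
    intro s hs1 hs2
    refine PhragmenLindelof.vertical_strip (f := fun s => s * Λ s) (a := 1 - B) (b := B)
      ?_ ?_ ?_ ?_ hs1 hs2
    · exact (differentiable_id.mul hdiff).diffContOnCl
    · have hk0 : 0 < Real.pi / (B - (1 - B)) / 2 := by
        have : 0 < Real.pi / (B - (1 - B)) := div_pos Real.pi_pos (by linarith)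
        linarith
      obtain ⟨k, hk⟩ : ∃ k : ℝ, k = Real.pi / (B - (1 - B)) / 2 := ⟨_, rfl⟩
      rw [← hk] at hk0
      have hk1 : k < Real.pi / (B - (1 - B)) := by
        rw [hk]
        have : 0 < Real.pi / (B - (1 - B)) := div_pos Real.pi_pos (by linarith)
        linarith
      obtain ⟨e, he⟩ : ∃ e : ℝ, e = k / (m + 1) := ⟨_, rfl⟩
      have hm0 : (0 : ℝ) < m + 1 := by positivity
      have he0 : 0 < e := by rw [he]; positivity
      obtain ⟨Q, hQ⟩ : ∃ Q : ℝ, Q = B + 1 + 1 / e := ⟨_, rfl⟩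
      have hQ0 : 0 < Q := by rw [hQ]; positivity
      refine ⟨k, hk1, |A| * Q ^ m + Q, ?_⟩
      refine Asymptotics.IsBigO.of_bound 1 ?_
      refine Filter.mem_of_superset (Filter.mem_inf_of_right (mem_principal_self _)) fun z hz => ?_
      have hz1 : 1 - B < z.re := hz.1
      have hz2 : z.re < B := hz.2
      have hzr : |z.re| ≤ B := abs_le.2 ⟨by linarith, by linarith⟩
      show ‖z * Λ z‖ ≤ 1 * ‖Real.exp ((|A| * Q ^ m + Q) * Real.exp (k * |z.im|))‖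
      rw [Real.norm_of_nonneg (Real.exp_pos _).le, one_mul, norm_mul]
      have him := abs_nonneg z.im
      have hz3 : 1 + ‖z‖ ≤ Q * Real.exp (e * |z.im|) := by
        have h1 := norm_le_abs_re_add_abs_im z
        have h2 := Real.add_one_le_exp (e * |z.im|)
        have h3 : 1 ≤ Real.exp (e * |z.im|) := Real.one_le_exp (by positivity)
        have h4 : |z.im| ≤ 1 / e * Real.exp (e * |z.im|) := by
          rw [one_div, ← div_eq_inv_mul, le_div_iff₀ he0]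
          linarith
        rw [hQ]
        nlinarith
      have hz4 : (1 + ‖z‖) ^ m ≤ Q ^ m * Real.exp (k * |z.im|) := by
        calc (1 + ‖z‖) ^ m ≤ (Q * Real.exp (e * |z.im|)) ^ m := by gcongr
          _ = Q ^ m * Real.exp (m * (e * |z.im|)) := by rw [mul_pow, ← Real.exp_nat_mul]
          _ ≤ Q ^ m * Real.exp (k * |z.im|) := by
            have h1 : (m : ℝ) * (e * |z.im|) ≤ k * |z.im| := by
              have h2 : (m : ℝ) * e ≤ k := by
                rw [he, mul_div_assoc', div_le_iff₀ hm0]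
                nlinarith
              nlinarith
            gcongr
      have hz5 : ‖Λ z‖ ≤ Real.exp (|A| * Q ^ m * Real.exp (k * |z.im|)) := by
        refine (hA z hzr).trans (Real.exp_le_exp.2 ?_)
        calc A * (1 + ‖z‖) ^ m ≤ |A| * (1 + ‖z‖) ^ m := by
              have := le_abs_self A
              gcongr
          _ ≤ |A| * (Q ^ m * Real.exp (k * |z.im|)) := by
              have := abs_nonneg A
              gcongr
          _ = _ := by ring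
      have hz6 : ‖z‖ ≤ Real.exp (Q * Real.exp (k * |z.im|)) := by
        have h1 : Q * Real.exp (e * |z.im|) ≤ Q * Real.exp (k * |z.im|) := by
          have h2 : e ≤ k := by
            rw [he, div_le_iff₀ hm0]
            have : (0 : ℝ) ≤ m := Nat.cast_nonneg m
            nlinarith
          gcongr
        have h2 := Real.add_one_le_exp (Q * Real.exp (k * |z.im|))
        linarith
      calc ‖z‖ * ‖Λ z‖ ≤ Real.exp (Q * Real.exp (k * |z.im|)) *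
            Real.exp (|A| * Q ^ m * Real.exp (k * |z.im|)) := by gcongr
        _ = Real.exp ((|A| * Q ^ m + Q) * Real.exp (k * |z.im|)) := by
            rw [← Real.exp_add]
            congr 1
            ring
    · intro z hz
      have h0 : ‖Λ z‖ = ‖W‖ * ‖Λ ((starRingEnd ℂ) (1 - z))‖ := by
        have := hW (1 - z)
        rwa [sub_sub_cancel] at this
      have h1 := hC₁ ((starRingEnd ℂ) (1 - z)) (by simp [hz])
      show ‖z * Λ z‖ ≤ C
      rw [norm_mul, h0]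
      have h2 : ‖z‖ ≤ 1 + ‖(starRingEnd ℂ) (1 - z)‖ := by
        rw [RCLike.norm_conj]
        have h2 := norm_sub_le (1:ℂ) (1 - z)
        rw [norm_one] at h2
        simpa using h2
      calc ‖z‖ * (‖W‖ * ‖Λ ((starRingEnd ℂ) (1 - z))‖)
          ≤ (1 + ‖(starRingEnd ℂ) (1 - z)‖) * (‖W‖ * ‖Λ ((starRingEnd ℂ) (1 - z))‖) := by
            gcongr
        _ = ‖W‖ * ((1 + ‖(starRingEnd ℂ) (1 - z)‖) * ‖Λ ((starRingEnd ℂ) (1 - z))‖) := by ring
        _ ≤ ‖W‖ * C₁ := by gcongr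
        _ ≤ C := hC2
    · intro z hz
      have h1 := hC₁ z hz
      refine le_trans ?_ (h1.trans hC1)
      show ‖z * Λ z‖ ≤ _
      rw [norm_mul]
      gcongr
      linarith
  refine ⟨C / c + 1, fun s hs1 hs2 => ?_⟩
  have h1 := abs_le.1 (hs1.trans (le_abs_self b'))
  have h2 := key s (by linarith) (by linarith)
  rw [norm_mul] at h2
  have h3 := abs_im_le_norm s
  have h4 : 0 ≤ C / c := div_nonneg hC0 hc.le
  have h5 : C < c * ‖s‖ := by
    have h6 : C / c < ‖s‖ := by linarith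
    rw [div_lt_iff₀ hc] at h6
    linarith
  by_contra h7
  push Not at h7
  have h8 : ‖s‖ * c ≤ ‖s‖ * ‖Λ s‖ := by gcongr
  linarith

/-- the logarithm with an additional factor `s (s - 1)` -/
theorem log_extra {f g : ℂ → ℂ} (hf : ∃ (σ₀ : ℝ) (L : ℂ → ℂ), 1 ≤ σ₀ ∧ ∀ s : ℂ, σ₀ < s.re →
      AnalyticAt ℂ L s ∧ cexp (L s) = f s ∧ 1 ≤ (deriv L s).re)
    (hg : ∀ s : ℂ, 1 < s.re → g s = s * (s - 1) * f s) :
    ∃ (σ₀ : ℝ) (L : ℂ → ℂ), 1 ≤ σ₀ ∧ ∀ s : ℂ, σ₀ < s.re →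
      AnalyticAt ℂ L s ∧ cexp (L s) = g s ∧ 1 ≤ (deriv L s).re := by
  obtain ⟨σ₀, L, h1, hL⟩ := hf
  refine ⟨σ₀, fun s => Complex.log s + Complex.log (s - 1) + L s, h1, fun s hs => ?_⟩
  obtain ⟨h2, h3, h4⟩ := hL s hs
  have hs1 : 1 < s.re := by linarith
  have m1 : s ∈ slitPlane := Or.inl (by linarith)
  have m2 : s - 1 ∈ slitPlane := Or.inl (by rw [sub_re, one_re]; linarith)
  have n1 := slitPlane_ne_zero m1
  have n2 := slitPlane_ne_zero m2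
  have a1 : AnalyticAt ℂ (fun s : ℂ => Complex.log s) s := analyticAt_id.clog m1
  have a2 : AnalyticAt ℂ (fun s : ℂ => Complex.log (s - 1)) s :=
    (analyticAt_id.sub analyticAt_const).clog m2
  refine ⟨(a1.add a2).add h2, ?_, ?_⟩
  · rw [Complex.exp_add, Complex.exp_add, Complex.exp_log n1, Complex.exp_log n2, h3, hg s hs1]
  · have d1 : HasDerivAt (fun s : ℂ => Complex.log s) (s⁻¹) s := Complex.hasDerivAt_log m1
    have d2 : HasDerivAt (fun s : ℂ => Complex.log (s - 1)) ((s - 1)⁻¹) s := by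
      have := (hasDerivAt_id s).sub_const (1 : ℂ) |>.clog m2
      simpa using this
    have hd := ((d1.add d2).add h2.differentiableAt.hasDerivAt).deriv
    have hd' : deriv (fun s => Complex.log s + Complex.log (s - 1) + L s) s =
        s⁻¹ + (s - 1)⁻¹ + deriv L s := hd
    rw [hd', add_re, add_re]
    have r1 : 0 ≤ (s⁻¹).re := by
      rw [inv_re]
      exact div_nonneg (by linarith) (normSq_nonneg _)
    have r2 : 0 ≤ ((s - 1)⁻¹).re := by
      rw [inv_re]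
      refine div_nonneg ?_ (normSq_nonneg _)
      rw [sub_re, one_re]
      linarith
    linarith

theorem good_of {N a b : ℕ} (hN : 0 < N) (hab : 1 ≤ a + b) {D Λ : ℂ → ℂ} (hD : LogBd D)
    (heq : ∀ s : ℂ, 1 < s.re → Λ s = prodForm N a b D s) (hdiff : Differentiable ℂ Λ)
    (hord : FinOrder Λ) (hfe : ∃ W : ℂ, ∀ s, ‖Λ (1 - s)‖ = ‖W‖ * ‖Λ ((starRingEnd ℂ) s)‖) :
    Good Λ :=
  ⟨hdiff, strip_of (q := fun _ => 1) hN hab hD (fun s => by
      rw [norm_one]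
      exact one_le_pow₀ (by linarith [norm_nonneg s]))
    (fun s hs => by rw [one_mul]; exact heq s hs) hdiff hord hfe, log_of hN hab hD heq⟩

theorem good_of' {N a b : ℕ} (hN : 0 < N) (hab : 1 ≤ a + b) {D Λ : ℂ → ℂ} (hD : LogBd D)
    (heq : ∀ s : ℂ, 1 < s.re → Λ s = s * (s - 1) * prodForm N a b D s)
    (hdiff : Differentiable ℂ Λ)
    (hord : FinOrder Λ) (hfe : ∃ W : ℂ, ∀ s, ‖Λ (1 - s)‖ = ‖W‖ * ‖Λ ((starRingEnd ℂ) s)‖) :
    Good Λ :=
  ⟨hdiff, strip_of (q := fun s => s * (s - 1)) hN hab hD (fun s => by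
      have h1 := norm_nonneg s
      have h2 := norm_sub_le s 1
      rw [norm_one] at h2
      rw [norm_mul, sq]
      gcongr
      · linarith
      · linarith)
    heq hdiff hord hfe, log_extra (log_of hN hab hD fun s _ => rfl) heq⟩

end Pool.Agent.Y149.AR
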