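import Pool.Agent.Y149.AR.Stm
import Pool.Agent.Y149.AR.Strip
import Pool.Agent.Y772.DK.Main
import Pool.Agent.Y773.HG.FeK

/-!
# Completed L-functions of characters of number fields are good functions
-/

set_option autoImplicit false

open NumberField Complex Filter Topology Set

namespace Pool.Agent.Y149.AR

open Pool.Agent.Y773 Pool.Agent.Y773.G Pool.Agent.Y772.DK Pool.Agent.Y922.AQ

theorem gam_split {ι : Type} [Fintype ι] (x : ι → ℕ) (hx : ∀ i, x i ≤ 1) :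
    ∃ a b : ℕ, a + b = Fintype.card ι ∧ ∀ s : ℂ,
      ∏ i, Gammaℝ (s + x i) = Gammaℝ s ^ a * Gammaℝ (s + 1) ^ b := by
  classical
  refine ⟨(Finset.univ.filter (fun i => x i = 0)).card, (Finset.univ.filter (fun i => ¬ x i = 0)).card,
    ?_, fun s => ?_⟩
  · rw [Finset.card_filter_add_card_filter_not, Finset.card_univ]
  · rw [← Finset.prod_filter_mul_prod_filter_not Finset.univ (fun i => x i = 0)]
    congr 1
    · rw [← Finset.prod_const]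
      refine Finset.prod_congr rfl fun i hi => ?_
      rw [Finset.mem_filter] at hi
      rw [hi.2, Nat.cast_zero, add_zero]
    · rw [← Finset.prod_const]
      refine Finset.prod_congr rfl fun i hi => ?_
      rw [Finset.mem_filter] at hi
      have h1 := hx i
      have h2 : x i = 1 := by omega
      rw [h2, Nat.cast_one]

section

variable {K : Type} [Field K] [NumberField K]

theorem GG_split {e : InfinitePlace K → ℕ} (he : ∀ w, e w ≤ 1) (N : ℕ) (ψ : Ideal (𝓞 K) →*₀ ℂ) :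
    ∃ a b : ℕ, a + b = Module.finrank ℚ K ∧ ∀ s : ℂ,
      GG (N : ℝ) (ex e) s * LI ψ s = prodForm N a b (LI ψ) s := by
  obtain ⟨a, b, h1, h2⟩ := gam_split (ex e) (ex_le he)
  refine ⟨a, b, by rw [h1, NumberField.Embeddings.card], fun s => ?_⟩
  unfold GG prodForm
  rw [h2, ofReal_natCast]
  ring

theorem logBd_LI (ψ : Ideal (𝓞 K) →*₀ ℂ) (hψ : ∀ 𝔞, ‖ψ 𝔞‖ ≤ 1) : LogBd (LI ψ) := by
  refine ⟨LA (Pool.Agent.Y772.DK.ee ψ), ∑' 𝔞, nr K (3 / 2) 𝔞, fun s hs => ⟨?_, ?_, ?_⟩⟩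
  · have hU : IsOpen {s : ℂ | 1 < s.re} := isOpen_lt continuous_const continuous_re
    have hd : DifferentiableOn ℂ (LA (Pool.Agent.Y772.DK.ee ψ)) {s : ℂ | 1 < s.re} := fun z hz =>
      (LA_diff (ee_zero ψ) (ee_le ψ hψ) hz).1.differentiableWithinAt
    exact hd.analyticAt (hU.mem_nhds (by show 1 < s.re; linarith))
  · exact (LI_eq_exp ψ hψ (by linarith)).symm
  · exact LA_le (ee_zero ψ) (ee_le ψ hψ) (by norm_num) hs.le

theorem unr_norm {e : InfinitePlace K → ℕ} {ψ : Ideal (𝓞 K) →*₀ ℂ} (h : IsUnr e ψ)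
    (𝔞 : Ideal (𝓞 K)) : ‖ψ 𝔞‖ ≤ 1 := by
  by_cases h0 : 𝔞 = ⊥
  · rw [h0, ← Ideal.zero_eq_bot, map_zero, norm_zero]
    exact zero_le_one
  have htop : (⊤ : Ideal (𝓞 K)) ≠ ⊥ := top_ne_bot
  obtain ⟨k, x, hk, hx0, -, hx⟩ := exists_pow htop h0 (by
    rw [Ideal.isCoprime_iff_sup_eq, sup_top_eq])
  have h1 := h.sig x hx0
  rw [← hx, map_pow] at h1
  have h2 := congrArg norm h1
  rw [norm_pow, G.norm_sg (by exact_mod_cast hx0)] at h2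
  exact ((pow_eq_one_iff_of_nonneg (norm_nonneg _) hk.ne').mp h2).le

theorem fe_norm {Ξ : ℂ → ℂ} {w : ℂ}
    (h : ∀ s : ℂ, Ξ s = w * (starRingEnd ℂ) (Ξ (1 - (starRingEnd ℂ) s))) :
    ∃ W : ℂ, ∀ s, ‖Ξ (1 - s)‖ = ‖W‖ * ‖Ξ ((starRingEnd ℂ) s)‖ := by
  refine ⟨w, fun s => ?_⟩
  rw [h (1 - s), norm_mul, RCLike.norm_conj, map_sub, map_one, sub_sub_cancel]

/-- ramified characters -/
theorem good_ram {𝔣 : Ideal (𝓞 K)} {e : InfinitePlace K → ℕ} {ψ : Ideal (𝓞 K) →*₀ ℂ}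
    (h : G.IsModChar 𝔣 e ψ) {Ξ : ℂ → ℂ} {w : ℂ} (h1 : Differentiable ℂ Ξ)
    (h2 : ∀ s : ℂ, 1 < s.re → Ξ s =
      GG ((Ideal.absNorm 𝔣 * Ideal.absNorm (differentIdeal ℤ (𝓞 K)) : ℕ) : ℝ) (ex e) s * LI ψ s)
    (h3 : ∀ s : ℂ, Ξ s = w * (starRingEnd ℂ) (Ξ (1 - (starRingEnd ℂ) s)))
    (h4 : ∀ a b : ℝ, ∃ C : ℝ, ∀ s : ℂ, a ≤ s.re → s.re ≤ b → ‖Ξ s‖ ≤ C) : Good Ξ := by
  obtain ⟨N, hN⟩ : ∃ N : ℕ, N = Ideal.absNorm 𝔣 * Ideal.absNorm (differentIdeal ℤ (𝓞 K)) := ⟨_, rfl⟩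
  rw [← hN] at h2
  have hN0 : 0 < N := by
    rw [hN]
    exact Nat.mul_pos (Nat.pos_of_ne_zero fun h5 => h.ne_bot (Ideal.absNorm_eq_zero_iff.mp h5))
      (Nat.pos_of_ne_zero fun h5 => differentIdeal_ne_bot (Ideal.absNorm_eq_zero_iff.mp h5))
  obtain ⟨a, b, hab, hGG⟩ := GG_split h.sig_le N ψ
  have hab' : 1 ≤ a + b := by
    rw [hab]
    exact Module.finrank_pos
  refine good_of hN0 hab' (logBd_LI ψ h.norm_le_one) (fun s hs => by rw [h2 s hs, hGG]) h1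
    (fun B => ?_) (fe_norm h3)
  obtain ⟨C, hC⟩ := h4 (-B) B
  refine ⟨|C|, 0, fun s hs => ?_⟩
  obtain ⟨h5, h6⟩ := abs_le.1 hs
  refine (hC s h5 h6).trans ((le_abs_self C).trans ?_)
  rw [pow_zero, mul_one]
  have := Real.add_one_le_exp |C|
  linarith

/-- unramified characters -/
theorem good_unr {e : InfinitePlace K → ℕ} {ψ : Ideal (𝓞 K) →*₀ ℂ}
    (h : IsUnr e ψ) {Ξ : ℂ → ℂ} {w : ℂ} (h1 : Differentiable ℂ Ξ)
    (h2 : ∀ s : ℂ, 1 < s.re → Ξ s = s * (s - 1) *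
      (GG ((Ideal.absNorm (differentIdeal ℤ (𝓞 K)) : ℕ) : ℝ) (ex e) s * LI ψ s))
    (h3 : ∀ s : ℂ, Ξ s = w * (starRingEnd ℂ) (Ξ (1 - (starRingEnd ℂ) s)))
    (h4 : ∀ a b : ℝ, ∃ C : ℝ, ∀ s : ℂ, a ≤ s.re → s.re ≤ b → ‖Ξ s‖ ≤ C * (1 + ‖s‖) ^ 2) :
    Good Ξ := by
  obtain ⟨N, hN⟩ : ∃ N : ℕ, N = Ideal.absNorm (differentIdeal ℤ (𝓞 K)) := ⟨_, rfl⟩
  rw [← hN] at h2
  have hN0 : 0 < N := by
    rw [hN]
    exact (Nat.pos_of_ne_zero fun h5 => differentIdeal_ne_bot (Ideal.absNorm_eq_zero_iff.mp h5))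
  obtain ⟨a, b, hab, hGG⟩ := GG_split h.sig_le N ψ
  have hab' : 1 ≤ a + b := by
    rw [hab]
    exact Module.finrank_pos
  refine good_of' hN0 hab' (logBd_LI ψ (unr_norm h)) (fun s hs => by rw [h2 s hs, hGG]) h1
    (fun B => ?_) (fe_norm h3)
  obtain ⟨C, hC⟩ := h4 (-B) B
  refine ⟨|C|, 2, fun s hs => ?_⟩
  obtain ⟨h5, h6⟩ := abs_le.1 hs
  refine (hC s h5 h6).trans ?_
  have h7 : C * (1 + ‖s‖) ^ 2 ≤ |C| * (1 + ‖s‖) ^ 2 := by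
    have := le_abs_self C
    gcongr
  have := Real.add_one_le_exp (|C| * (1 + ‖s‖) ^ 2)
  linarith

end

end Pool.Agent.Y149.AR
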