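import Pool.Agent.Y149.AR.Fin
import Pool.Agent.Y149.AR.HGood
import Pool.Agent.Y149.AR.Ram
import Pool.Agent.Y772.HG.Sgn
import Pool.Agent.Y772.FE.Gam

/-!
# Assembly for finite products of completed L-functions
-/

set_option autoImplicit false

open NumberField Complex Filter Topology Set

namespace Pool.Agent.Y149.AR

open Pool.Agent.Y773 Pool.Agent.Y773.G Pool.Agent.Y772.DK Pool.Agent.Y922.AQ
open Pool.Agent.Y922.AP (adj fun_of)

/-- `Λ` is a completion of the L-function `L` of degree `n` -/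
structure IsComp (n : ℕ) (L Λ : ℂ → ℂ) : Prop where
  entire : Differentiable ℂ Λ
  growth : ∀ B : ℝ, ∃ (A : ℝ) (m : ℕ), ∀ s : ℂ, |s.re| ≤ B → ‖Λ s‖ ≤ Real.exp (A * (1 + ‖s‖) ^ m)
  formula : ∃ N a b c : ℕ, 0 < N ∧ a + b = n ∧ c ≤ 1 ∧ ∀ s : ℂ, 1 < s.re →
    Λ s = (s * (s - 1)) ^ c * ((N : ℂ) ^ (s / 2) * Gammaℝ s ^ a * Gammaℝ (s + 1) ^ b * L s)
  fe : ∃ w : ℂ, ∀ s : ℂ, Λ s = w * (starRingEnd ℂ) (Λ (1 - (starRingEnd ℂ) s))

theorem good_comp {n : ℕ} {L Λ : ℂ → ℂ} (h : IsComp n L Λ) (hn : 1 ≤ n) (hL : LogBd L) : Good Λ := by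
  obtain ⟨N, a, b, c, hN, hab, hc, hform⟩ := h.formula
  obtain ⟨w, hw⟩ := h.fe
  interval_cases c
  · refine good_of (a := a) (b := b) hN (by omega) hL (fun s hs => ?_) h.entire h.growth (fe_norm hw)
    rw [hform s hs, pow_zero, one_mul]
    rfl
  · refine good_of' (a := a) (b := b) hN (by omega) hL (fun s hs => ?_) h.entire h.growth (fe_norm hw)
    rw [hform s hs, pow_one]
    rfl

section hecke

variable {K : Type} [Field K] [NumberField K]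

theorem prim_norm {𝔣 : Ideal (𝓞 K)} {ψ : Ideal (𝓞 K) →*₀ ℂ} (h : G.IsPrimChar K 𝔣 ψ)
    (𝔞 : Ideal (𝓞 K)) : ‖ψ 𝔞‖ ≤ 1 := by
  by_cases h0 : 𝔞 = ⊥
  · rw [h0, ← Ideal.zero_eq_bot, map_zero, norm_zero]
    exact zero_le_one
  by_cases hc : IsCoprime 𝔞 𝔣
  · obtain ⟨e, -, -, hsig⟩ := Pool.Agent.Y772.G.t_sig K 𝔣 ψ h.ne_bot h.ray
    obtain ⟨k, x, hk, hx0, hx1, hx⟩ := exists_pow h.ne_bot h0 hc
    have h1 := hsig x hx0 hx1
    rw [← hx, map_pow] at h1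
    have h2 := congrArg norm h1
    rw [norm_pow, G.norm_sg (by exact_mod_cast hx0)] at h2
    exact ((pow_eq_one_iff_of_nonneg (norm_nonneg _) hk.ne').mp h2).le
  · have : ψ 𝔞 = 0 := by
      by_contra h1
      exact hc ((h.supp 𝔞 h0).mp h1)
    rw [this, norm_zero]
    exact zero_le_one

theorem logBd_congr {D D' : ℂ → ℂ} (h : LogBd D) (he : ∀ s : ℂ, 1 < s.re → D' s = D s) : LogBd D' := by
  obtain ⟨ell, M, hell⟩ := h
  refine ⟨ell, M, fun s hs => ?_⟩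
  obtain ⟨h1, h2, h3⟩ := hell s hs
  exact ⟨h1, by rw [h2, he s (by linarith)], h3⟩

/-- existence of the completion -/
theorem exists_comp (hunr : S_UNR) {𝔣 : Ideal (𝓞 K)} {ψ : Ideal (𝓞 K) →*₀ ℂ} (h : G.IsPrimChar K 𝔣 ψ)
    {L : ℂ → ℂ} (hL : ∀ s : ℂ, 1 < s.re → L s = LI ψ s) :
    ∃ Λ : ℂ → ℂ, IsComp (Module.finrank ℚ K) L Λ := by
  obtain ⟨e, he, hcx, hsig⟩ := Pool.Agent.Y772.G.t_sig K 𝔣 ψ h.ne_bot h.ray
  by_cases htop : 𝔣 = ⊤
  · have hu : IsUnr e ψ := ⟨he, hcx, fun 𝔞 h𝔞 => by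
      refine (h.supp 𝔞 h𝔞).2 ?_
      rw [htop, Ideal.isCoprime_iff_sup_eq, sup_top_eq], fun x hx => hsig x hx (by
      rw [htop]; exact Submodule.mem_top)⟩
    obtain ⟨Ξ, w, h1, h2, h3, h4⟩ := hunr K e ψ hu
    obtain ⟨a, b, hab, hGG⟩ := GG_split he (Ideal.absNorm (differentIdeal ℤ (𝓞 K))) ψ
    refine ⟨Ξ, h1, fun B => ?_, ⟨Ideal.absNorm (differentIdeal ℤ (𝓞 K)), a, b, 1, ?_, hab, le_rfl,
      fun s hs => ?_⟩, w, h3⟩
    · obtain ⟨C, hC⟩ := h4 (-B) B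
      refine ⟨|C|, 2, fun s hs => ?_⟩
      obtain ⟨h5, h6⟩ := abs_le.1 hs
      refine (hC s h5 h6).trans ?_
      have h7 : C * (1 + ‖s‖) ^ 2 ≤ |C| * (1 + ‖s‖) ^ 2 := by
        have := le_abs_self C
        gcongr
      have := Real.add_one_le_exp (|C| * (1 + ‖s‖) ^ 2)
      linarith
    · exact (Nat.pos_of_ne_zero fun h5 => differentIdeal_ne_bot (Ideal.absNorm_eq_zero_iff.mp h5))
    · rw [h2 s hs, hGG, hL s hs, pow_one]
      rfl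
  · have hm : G.IsModChar 𝔣 e ψ := by
      refine ⟨h.ne_bot, htop, he, hcx, fun 𝔞 => ?_, hsig⟩
      by_cases h0 : 𝔞 = ⊥
      · subst h0
        have h1 : ψ (⊥ : Ideal (𝓞 K)) = 0 := map_zero ψ
        constructor
        · intro h2
          exact absurd h1 h2
        · intro h2
          exfalso
          rw [Ideal.isCoprime_iff_sup_eq, bot_sup_eq] at h2
          exact htop h2
      · exact h.supp 𝔞 h0
    obtain ⟨Ξ, w, h1, h2, h3, h4⟩ := ram K 𝔣 e ψ h hm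
    obtain ⟨a, b, hab, hGG⟩ := GG_split he
      (Ideal.absNorm 𝔣 * Ideal.absNorm (differentIdeal ℤ (𝓞 K))) ψ
    refine ⟨Ξ, h1, fun B => ?_,
      ⟨Ideal.absNorm 𝔣 * Ideal.absNorm (differentIdeal ℤ (𝓞 K)), a, b, 0, ?_, hab, zero_le_one,
      fun s hs => ?_⟩, w, h3⟩
    · obtain ⟨C, hC⟩ := h4 (-B) B
      refine ⟨|C|, 0, fun s hs => ?_⟩
      obtain ⟨h5, h6⟩ := abs_le.1 hs
      refine (hC s h5 h6).trans ((le_abs_self C).trans ?_)
      rw [pow_zero, mul_one]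
      have := Real.add_one_le_exp |C|
      linarith
    · exact Nat.mul_pos (Nat.pos_of_ne_zero fun h5 => h.ne_bot (Ideal.absNorm_eq_zero_iff.mp h5))
        (Nat.pos_of_ne_zero fun h5 => differentIdeal_ne_bot (Ideal.absNorm_eq_zero_iff.mp h5))
    · rw [h2 s hs, hGG, hL s hs, pow_zero, one_mul]
      rfl

end hecke

/-! ## products -/

/-- the factor is real on the real axis -/
theorem factor_conj (N a b c : ℕ) (σ : ℝ) :
    (starRingEnd ℂ) (((σ : ℂ) * ((σ : ℂ) - 1)) ^ c * ((N : ℂ) ^ ((σ : ℂ) / 2) * Gammaℝ σ ^ a *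
      Gammaℝ ((σ : ℂ) + 1) ^ b)) =
    ((σ : ℂ) * ((σ : ℂ) - 1)) ^ c * ((N : ℂ) ^ ((σ : ℂ) / 2) * Gammaℝ σ ^ a *
      Gammaℝ ((σ : ℂ) + 1) ^ b) := by
  have h1 : (starRingEnd ℂ) ((N : ℂ) ^ ((σ : ℂ) / 2)) = (N : ℂ) ^ ((σ : ℂ) / 2) := by
    have h2 : (N : ℂ) ^ ((σ : ℂ) / 2) = (((N : ℝ) ^ (σ / 2) : ℝ) : ℂ) := by
      rw [Complex.ofReal_cpow (Nat.cast_nonneg N)]
      push_cast
      rfl
    rw [h2, conj_ofReal]
  simp only [map_mul, map_pow, map_sub, map_one, conj_ofReal, h1, Pool.Agent.Y772.FE.conj_Gammaℝ,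
    map_add]

/-- reflection -/
theorem reflect {P : ℂ → ℂ} (hP : Differentiable ℂ P) (h : ∀ σ : ℝ, 1 < σ →
    (starRingEnd ℂ) (P σ) = P σ) (s : ℂ) : P ((starRingEnd ℂ) s) = (starRingEnd ℂ) (P s) := by
  have hQ : Differentiable ℂ (fun z => (starRingEnd ℂ) (P ((starRingEnd ℂ) z))) := by
    intro z
    have h1 := (hP ((starRingEnd ℂ) z)).conj_conj
    rw [Complex.conj_conj] at h1
    exact h1
  have key : (fun z => (starRingEnd ℂ) (P ((starRingEnd ℂ) z))) = P := by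
    refine AnalyticOnNhd.eq_of_frequently_eq (z₀ := (2 : ℂ)) (fun z _ => hQ.analyticAt z)
      (fun z _ => hP.analyticAt z) ?_
    have ht : Tendsto (fun σ : ℝ => (σ : ℂ)) (𝓝[≠] 2) (𝓝[≠] (2 : ℂ)) := by
      refine tendsto_nhdsWithin_iff.2 ⟨?_, ?_⟩
      · have : Tendsto (fun σ : ℝ => (σ : ℂ)) (𝓝 2) (𝓝 ((2 : ℝ) : ℂ)) :=
          Complex.continuous_ofReal.tendsto _
        rw [ofReal_ofNat] at this
        exact this.mono_left nhdsWithin_le_nhds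
      · filter_upwards [self_mem_nhdsWithin] with σ hσ h2
        apply hσ
        have h3 : (σ : ℂ) = 2 := h2
        have h4 : (σ : ℂ) = ((2 : ℝ) : ℂ) := by rw [h3, ofReal_ofNat]
        exact ofReal_injective h4
    refine ht.frequently ?_
    refine Eventually.frequently ?_
    have h1 : ∀ᶠ σ : ℝ in 𝓝[≠] 2, 1 < σ :=
      (lt_mem_nhds (by norm_num)).filter_mono nhdsWithin_le_nhds
    filter_upwards [h1] with σ hσ
    rw [conj_ofReal, h σ hσ]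
  have h1 := congrFun key ((starRingEnd ℂ) s)
  rw [← h1, Complex.conj_conj]

theorem good_prod {n : ℕ} (Λ : Fin n → ℂ → ℂ) (h : ∀ i, Good (Λ i)) :
    Good (XL (fun s => ∏ i, Λ i s)) := by
  classical
  have key : ∀ s : Finset (Fin n), Good (XL (fun z => ∏ i ∈ s, Λ i z)) := by
    intro s
    induction s using Finset.induction_on with
    | empty =>
      have : XL (fun z => ∏ i ∈ (∅ : Finset (Fin n)), Λ i z) = Pool.Agent.Y922.AP.xi := by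
        ext z; simp [XL]
      rw [this]; exact good_xi
    | insert i s hi ih =>
      have h2 : XL (fun z => ∏ i ∈ insert i s, Λ i z) = fun z => XL (fun z => ∏ i ∈ s, Λ i z) z * Λ i z := by
        ext z
        simp only [XL]
        rw [Finset.prod_insert hi]
        ring
      rw [h2]
      exact Y529.AQ.t_MUL _ _ ih (h i)
  exact key Finset.univ

section prod

variable {n : ℕ} {d : Fin n → ℕ} {L Λ : Fin n → ℂ → ℂ}

theorem prod_real (h : ∀ i, IsComp (d i) (L i) (Λ i))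
    (hr : ∀ σ : ℝ, 1 < σ → (∏ i, L i σ).im = 0) (s : ℂ) :
    (∏ i, Λ i ((starRingEnd ℂ) s)) = (starRingEnd ℂ) (∏ i, Λ i s) := by
  refine reflect (P := fun s => ∏ i, Λ i s) (Differentiable.fun_finsetProd fun i _ => (h i).entire)
    (fun σ hσ => ?_) s
  choose N a b c hN hab hc hform using fun i => (h i).formula
  have h1 : ∀ i, Λ i (σ : ℂ) = (((σ : ℂ) * ((σ : ℂ) - 1)) ^ c i * ((N i : ℂ) ^ ((σ : ℂ) / 2) *
      Gammaℝ σ ^ a i * Gammaℝ ((σ : ℂ) + 1) ^ b i)) * L i σ := by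
    intro i
    rw [hform i (σ : ℂ) (by simpa using hσ)]
    ring
  have h2 : (starRingEnd ℂ) (∏ i, L i σ) = ∏ i, L i σ := Complex.conj_eq_iff_im.2 (hr σ hσ)
  show (starRingEnd ℂ) (∏ i, Λ i σ) = ∏ i, Λ i σ
  rw [Finset.prod_congr rfl fun i _ => h1 i, Finset.prod_mul_distrib, map_mul, h2, map_prod,
    Finset.prod_congr rfl fun i _ => factor_conj (N i) (a i) (b i) (c i) σ]

theorem prod_fe (h : ∀ i, IsComp (d i) (L i) (Λ i))
    (hr : ∀ σ : ℝ, 1 < σ → (∏ i, L i σ).im = 0) :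
    ∃ w : ℂ, ∀ s : ℂ, XL (fun s => ∏ i, Λ i s) (1 - s) = w * XL (fun s => ∏ i, Λ i s) s := by
  choose w hw using fun i => (h i).fe
  refine ⟨∏ i, w i, fun s => ?_⟩
  have h1 : ∏ i, Λ i (1 - s) = (∏ i, w i) * ∏ i, Λ i s := by
    rw [Finset.prod_congr rfl fun i _ => hw i (1 - s), Finset.prod_mul_distrib, ← map_prod]
    congr 1
    rw [map_sub, map_one, sub_sub_cancel, prod_real h hr, Complex.conj_conj]
  unfold XL
  simp only
  rw [h1, Y907.AP.t_SYM.1]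
  ring

theorem prod_conj (h : ∀ i, IsComp (d i) (L i) (Λ i))
    (hr : ∀ σ : ℝ, 1 < σ → (∏ i, L i σ).im = 0) (s : ℂ) :
    XL (fun s => ∏ i, Λ i s) (starRingEnd ℂ s) = starRingEnd ℂ (XL (fun s => ∏ i, Λ i s) s) := by
  unfold XL
  simp only
  rw [prod_real h hr, map_mul, Y907.AP.t_SYM.2.1]

end prod

/-! ## the theorem for one function -/

theorem gen_one {f : ℂ → ℂ} (hg : Good f) (hfe : ∃ w : ℂ, ∀ s : ℂ, f (1 - s) = w * f s)
    (hconj : ∀ s : ℂ, f (starRingEnd ℂ s) = starRingEnd ℂ (f s))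
    (hzero : ∃ t : ℝ, 0 < t ∧ f (1 / 2 + t * Complex.I) = 0) (K : Subfield ℂ) (hK : Countable K) :
    ∃ X : Set ℂ, X.Countable ∧ (∀ a : ℂ, a ∉ X → Transcendental K a ∧
      (∀ s, f s = a → deriv f s ≠ 0) ∧
      ∀ (n : ℕ) (s : Fin n → ℂ), (∀ i, f (s i) = a) →
        (∀ i j, i ≠ j → s i ≠ s j ∧ s i + s j ≠ 1) → AlgebraicIndependent (adj K a) s) ∧
      ∀ a : ℝ, (a : ℂ) ∉ X → AlgebraicIndependent (adj K a)
        (fun γ : {γ : ℝ // 0 < γ ∧ ∃ β : ℝ, f ((β : ℂ) + (γ : ℂ) * Complex.I) = (a : ℂ)} =>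
          ((γ.1 : ℝ) : ℂ)) ∧
        ∀ β β' γ : ℝ, 0 < γ → f ((β : ℂ) + (γ : ℂ) * Complex.I) = a →
          f ((β' : ℂ) + (γ : ℂ) * Complex.I) = a → β' = β ∨ β' = 1 - β := by
  obtain ⟨X, hX, h1, h2⟩ := finalL hg hfe hconj hzero K hK
  refine ⟨X ∪ {a : ℂ | ∃ s, f s = a ∧ deriv f s = 0}, hX.union (crit_countable hg),
    fun a ha => ?_, fun a ha => ?_⟩
  · have ha1 : a ∉ X := fun h => ha (Or.inl h)
    refine ⟨(h1 a ha1).1, fun s hs hd => ha (Or.inr ⟨s, hs, hd⟩), (h1 a ha1).2⟩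
  · have ha1 : (a : ℂ) ∉ X := fun h => ha (Or.inl h)
    exact ⟨h2 a ha1, fun β β' γ hγ h3 h4 => same_ord hconj (h1 a ha1).2 hγ h3 h4⟩

theorem gen_fun {f : ℂ → ℂ} (hgood : Good f) (hfe : ∃ w : ℂ, ∀ s : ℂ, f (1 - s) = w * f s)
    (hconj : ∀ s : ℂ, f (starRingEnd ℂ s) = starRingEnd ℂ (f s))
    (hzero : ∃ t : ℝ, 0 < t ∧ f (1 / 2 + t * Complex.I) = 0) (n : ℕ)
    (P : MvPolynomial (Option (Fin n)) ℂ) (hP : P ≠ 0) (a₀ : ℂ) (g : Fin n → ℂ → ℂ)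
    (hg : ∀ i, AnalyticAt ℂ (g i) a₀) (hXg : ∀ i, ∀ᶠ a in 𝓝 a₀, f (g i a) = a)
    (hinj : ∀ i j, i ≠ j → g i a₀ ≠ g j a₀ ∧ g i a₀ + g j a₀ ≠ 1) :
    ∀ᶠ a in 𝓝[≠] a₀, MvPolynomial.eval (fun o : Option (Fin n) => o.elim a fun i => g i a) P ≠ 0 := by
  refine fun_of (f := f) (fun K hK => ?_) n P hP a₀ g hg hXg hinj
  obtain ⟨X, hX, h1, -⟩ := finalL hgood hfe hconj hzero K hK
  exact ⟨X, hX, fun a ha n s hs hd =>
    (Y388.AP.t_TOW K a (Fin n) s).mpr ⟨(h1 a ha).1, (h1 a ha).2 n s hs hd⟩⟩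

end Pool.Agent.Y149.AR
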