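import Mathlib

/-!
# Artin L-functions over the rationals and their completions

The definitions of the Euler factors are those of the hand-ins `MP_0f5a55_nt.DegreeFour6725` and
`MP_3b6604_nt.ThirdEveryModulus`.
-/

set_option autoImplicit false

open Complex NumberField

namespace Pool.Agent.Y149.AR

section artin

variable {E : Type} [Field E] [NumberField E] {V : Type} [AddCommGroup V] [Module ℂ V]

/-- the inertia group of `P` in `Gal(E/ℚ)` -/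
def inertia (P : Ideal (𝓞 E)) : Set (E ≃ₐ[ℚ] E) :=
  {τ | ∀ x y : 𝓞 E, (y : E) = τ (x : E) → y - x ∈ P}

/-- `σ` is a Frobenius element at the prime ideal `P` above `p`: `σ x ≡ x^p mod P`. -/
def IsFrob (p : ℕ) (P : Ideal (𝓞 E)) (σ : E ≃ₐ[ℚ] E) : Prop :=
  P.IsPrime ∧ (p : 𝓞 E) ∈ P ∧ ∀ x y : 𝓞 E, (y : E) = σ (x : E) → y - x ^ p ∈ P

/-- The projection of `V` onto the subspace of the vectors fixed by the inertia group of `P`. -/
noncomputable def invProj (ρ : Representation ℂ (E ≃ₐ[ℚ] E) V) (P : Ideal (𝓞 E)) : V →ₗ[ℂ] V :=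
  ((inertia P).ncard : ℂ)⁻¹ • ∑ᶠ τ ∈ inertia P, ρ τ

/-- `det(1 - x ρ(σ) | V^I)`, where `I` is the inertia group of `P`. -/
noncomputable def eulerPoly (ρ : Representation ℂ (E ≃ₐ[ℚ] E) V) (P : Ideal (𝓞 E))
    (σ : E ≃ₐ[ℚ] E) (x : ℂ) : ℂ :=
  LinearMap.det (LinearMap.id - x • (ρ σ ∘ₗ invProj ρ P))

/-- For `Re s > 1` the value `F s` is that of the Artin L-function `L(s, ρ, E/ℚ)`, the product of
`det(1 - p^(-s) ρ(Frob_p) | V^(I_p))⁻¹` over all primes `p`. -/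
def IsArtinL (ρ : Representation ℂ (E ≃ₐ[ℚ] E) V) (F : ℂ → ℂ) : Prop :=
  ∃ (P : Nat.Primes → Ideal (𝓞 E)) (σ : Nat.Primes → (E ≃ₐ[ℚ] E)),
    (∀ p : Nat.Primes, IsFrob p (P p) (σ p)) ∧ ∀ s : ℂ, 1 < s.re →
      HasProd (fun p : Nat.Primes => (eulerPoly ρ (P p) (σ p) (((p : ℕ) : ℂ) ^ (-s)))⁻¹) (F s)

/-- `Λ` is the completed Artin L-function of `ρ`, a representation with real character for which
Artin's conjecture holds: `Λ` is entire, of finite order,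
`Λ(s) = N^(s/2) Γ_ℝ(s)^a Γ_ℝ(s+1)^b L(s, ρ)` with `a + b = dim ρ` for `Re s > 1`,
`Λ(1 - s) = W Λ(s)`, and `Λ` is real on the real axis. -/
structure IsCompleted (ρ : Representation ℂ (E ≃ₐ[ℚ] E) V) (Λ : ℂ → ℂ) : Prop where
  entire : Differentiable ℂ Λ
  order : ∃ (A : ℝ) (m : ℕ), ∀ s : ℂ, ‖Λ s‖ ≤ Real.exp (A * (1 + ‖s‖) ^ m)
  formula : ∃ (N a b : ℕ) (F : ℂ → ℂ), 0 < N ∧ a + b = Module.finrank ℂ V ∧ IsArtinL ρ F ∧
    ∀ s : ℂ, 1 < s.re → Λ s = (N : ℂ) ^ (s / 2) * Gammaℝ s ^ a * Gammaℝ (s + 1) ^ b * F s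
  fe : ∃ W : ℂ, ∀ s : ℂ, Λ (1 - s) = W * Λ s
  real : ∀ s : ℂ, Λ ((starRingEnd ℂ) s) = (starRingEnd ℂ) (Λ s)

end artin

end Pool.Agent.Y149.AR
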