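import Pool.Agent.Y149.AR.Defs

/-!
# The logarithm of an Artin L-function
-/

set_option autoImplicit false

open Filter Topology Set Complex NumberField

namespace Pool.Agent.Y149.AR

theorem multiset_log (s : Multiset ℂ) : (∀ z ∈ s, ‖z‖ ≤ 1) → ∃ g : ℂ → ℂ, ∀ x : ℂ, ‖x‖ ≤ 1 / 2 →
    AnalyticAt ℂ g x ∧ cexp (g x) = ((s.map fun z => 1 - x * z).prod)⁻¹ ∧
      ‖g x‖ ≤ s.card * (3 / 2 * ‖x‖) := by
  induction s using Multiset.induction_on with
  | empty => intro _; exact ⟨fun _ => 0, fun x _ => ⟨analyticAt_const, by simp, by simp⟩⟩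
  | cons a s ih =>
    intro hs
    obtain ⟨g, hg⟩ := ih fun z hz => hs z (Multiset.mem_cons_of_mem hz)
    have ha := hs a (Multiset.mem_cons_self a s)
    refine ⟨fun x => -Complex.log (1 - x * a) + g x, fun x hx => ?_⟩
    obtain ⟨h1, h2, h3⟩ := hg x hx
    have hxa : ‖-(x * a)‖ ≤ ‖x‖ := by
      rw [norm_neg, norm_mul]
      calc ‖x‖ * ‖a‖ ≤ ‖x‖ * 1 := by gcongr
        _ = ‖x‖ := mul_one _
    have hsl : 1 - x * a ∈ slitPlane := by
      rw [sub_eq_add_neg]
      exact mem_slitPlane_of_norm_lt_one (by linarith)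
    have hne : 1 - x * a ≠ 0 := slitPlane_ne_zero hsl
    refine ⟨?_, ?_, ?_⟩
    · refine AnalyticAt.add ?_ h1
      refine AnalyticAt.neg ?_
      exact AnalyticAt.clog (by fun_prop) hsl
    · rw [Complex.exp_add, h2, Complex.exp_neg, Complex.exp_log hne, Multiset.map_cons,
        Multiset.prod_cons, mul_inv]
    · rw [Multiset.card_cons]
      have h4 := norm_log_one_add_half_le_self (z := -(x * a)) (by linarith)
      rw [← sub_eq_add_neg] at h4
      refine (norm_add_le _ _).trans ?_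
      rw [norm_neg]
      push_cast
      nlinarith [norm_nonneg x]

/-- the inverse roots of `det(1 - x f)` -/
theorem det_roots {V : Type} [AddCommGroup V] [Module ℂ V] [FiniteDimensional ℂ V]
    (f : V →ₗ[ℂ] V) : ∃ s : Multiset ℂ, s.card = Module.finrank ℂ V ∧
      ∀ x : ℂ, LinearMap.det (LinearMap.id - x • f) = (s.map fun z => 1 - x * z).prod := by
  classical
  obtain ⟨b, hb⟩ : ∃ b : Module.Basis (Fin (Module.finrank ℂ V)) ℂ V, b = Module.finBasis ℂ V :=
    ⟨_, rfl⟩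
  obtain ⟨M, hM⟩ : ∃ M : Matrix (Fin (Module.finrank ℂ V)) (Fin (Module.finrank ℂ V)) ℂ,
    M = LinearMap.toMatrix b b f := ⟨_, rfl⟩
  have hsp : M.charpoly.Splits := IsAlgClosed.splits _
  have hcard : M.charpoly.roots.card = Module.finrank ℂ V := by
    rw [Polynomial.splits_iff_card_roots.1 hsp, M.charpoly_natDegree_eq_dim, Fintype.card_fin]
  refine ⟨M.charpoly.roots, hcard, fun x => ?_⟩
  have h0 : LinearMap.det (LinearMap.id - x • f) = (1 - x • M).det := by
    rw [← LinearMap.det_toMatrix b, map_sub, map_smul, ← hM, LinearMap.toMatrix_id]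
  rw [h0]
  by_cases hx : x = 0
  · subst hx
    simp
  have h1 : M.charpoly.eval x⁻¹ = (Matrix.scalar _ x⁻¹ - M).det := Matrix.eval_charpoly M x⁻¹
  have h2 : (1 - x • M) = x • (Matrix.scalar (Fin (Module.finrank ℂ V)) x⁻¹ - M) := by
    rw [smul_sub]
    congr 1
    ext i j
    rw [Matrix.smul_apply, Matrix.scalar_apply, Matrix.diagonal_apply, Matrix.one_apply]
    split_ifs
    · rw [smul_eq_mul, mul_inv_cancel₀ hx]
    · simp
  have h3 : M.charpoly.eval x⁻¹ = (M.charpoly.roots.map fun z => x⁻¹ - z).prod := by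
    conv_lhs => rw [hsp.eq_prod_roots]
    rw [M.charpoly_monic.leadingCoeff, Polynomial.C_1, one_mul, Polynomial.eval_multiset_prod,
      Multiset.map_map]
    simp
  rw [h2, Matrix.det_smul, ← h1, h3, Fintype.card_fin]
  have h4 : ∀ s : Multiset ℂ, x ^ s.card * (s.map fun z => x⁻¹ - z).prod =
      (s.map fun z => 1 - x * z).prod := by
    intro s
    induction s using Multiset.induction_on with
    | empty => simp
    | cons a s ih =>
      rw [Multiset.map_cons, Multiset.prod_cons, Multiset.card_cons, Multiset.map_cons,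
        Multiset.prod_cons, ← ih]
      have : 1 - x * a = x * (x⁻¹ - a) := by
        rw [mul_sub, mul_inv_cancel₀ hx]
      rw [this, pow_succ]
      ring
  rw [← h4, hcard]

section
variable {E : Type} [Field E] [NumberField E] {V : Type} [AddCommGroup V] [Module ℂ V]
  [FiniteDimensional ℂ V]

/-- an invariant norm -/
noncomputable def nrm (ρ : Representation ℂ (E ≃ₐ[ℚ] E) V) (v : V) : ℝ :=
  ∑ g : E ≃ₐ[ℚ] E, ∑ i, ‖(Module.finBasis ℂ V).repr (ρ g v) i‖

theorem nrm_smul (ρ : Representation ℂ (E ≃ₐ[ℚ] E) V) (c : ℂ) (v : V) :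
    nrm ρ (c • v) = ‖c‖ * nrm ρ v := by
  unfold nrm
  rw [Finset.mul_sum]
  refine Finset.sum_congr rfl fun g _ => ?_
  rw [Finset.mul_sum]
  refine Finset.sum_congr rfl fun i _ => ?_
  rw [map_smul, map_smul, Finsupp.smul_apply, smul_eq_mul, norm_mul]

theorem nrm_add (ρ : Representation ℂ (E ≃ₐ[ℚ] E) V) (v w : V) :
    nrm ρ (v + w) ≤ nrm ρ v + nrm ρ w := by
  unfold nrm
  rw [← Finset.sum_add_distrib]
  refine Finset.sum_le_sum fun g _ => ?_
  rw [← Finset.sum_add_distrib]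
  refine Finset.sum_le_sum fun i _ => ?_
  rw [map_add, map_add, Finsupp.add_apply]
  exact norm_add_le _ _

theorem nrm_zero (ρ : Representation ℂ (E ≃ₐ[ℚ] E) V) : nrm ρ 0 = 0 := by
  simp [nrm]

theorem nrm_nonneg (ρ : Representation ℂ (E ≃ₐ[ℚ] E) V) (v : V) : 0 ≤ nrm ρ v :=
  Finset.sum_nonneg fun _ _ => Finset.sum_nonneg fun _ _ => norm_nonneg _

theorem nrm_pos (ρ : Representation ℂ (E ≃ₐ[ℚ] E) V) {v : V} (hv : v ≠ 0) : 0 < nrm ρ v := by
  rcases (nrm_nonneg ρ v).lt_or_eq with h | h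
  · exact h
  exfalso
  apply hv
  have h1 := (Finset.sum_eq_zero_iff_of_nonneg (fun g _ => Finset.sum_nonneg
    fun i _ => norm_nonneg ((Module.finBasis ℂ V).repr (ρ g v) i))).1 h.symm 1 (Finset.mem_univ _)
  have h2 := (Finset.sum_eq_zero_iff_of_nonneg
    (fun i _ => norm_nonneg ((Module.finBasis ℂ V).repr (ρ 1 v) i))).1 h1
  apply (Module.finBasis ℂ V).repr.injective
  ext i
  have h3 := h2 i (Finset.mem_univ _)
  rw [map_one, norm_eq_zero] at h3
  simpa using h3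

theorem nrm_act (ρ : Representation ℂ (E ≃ₐ[ℚ] E) V) (h : E ≃ₐ[ℚ] E) (v : V) :
    nrm ρ (ρ h v) = nrm ρ v := by
  unfold nrm
  refine Fintype.sum_equiv (Equiv.mulRight h) _ _ fun g => ?_
  refine Finset.sum_congr rfl fun i _ => ?_
  rw [Equiv.coe_mulRight, map_mul]
  rfl

theorem nrm_sum (ρ : Representation ℂ (E ≃ₐ[ℚ] E) V) {ι : Type} (s : Finset ι) (f : ι → V) :
    nrm ρ (∑ i ∈ s, f i) ≤ ∑ i ∈ s, nrm ρ (f i) := by
  classical
  induction s using Finset.induction_on with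
  | empty => simp [nrm_zero]
  | insert a s ha ih =>
    rw [Finset.sum_insert ha, Finset.sum_insert ha]
    exact (nrm_add ρ _ _).trans (by linarith)

theorem nrm_proj (ρ : Representation ℂ (E ≃ₐ[ℚ] E) V) (P : Ideal (𝓞 E)) (v : V) :
    nrm ρ (invProj ρ P v) ≤ nrm ρ v := by
  classical
  have hfin : (inertia P).Finite := Set.toFinite _
  unfold invProj
  rw [finsum_mem_eq_finite_toFinset_sum _ hfin, LinearMap.smul_apply, LinearMap.sum_apply,
    nrm_smul, Set.ncard_eq_toFinset_card _ hfin]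
  have h1 := nrm_sum ρ hfin.toFinset (fun τ => ρ τ v)
  have h2 : ∑ τ ∈ hfin.toFinset, nrm ρ (ρ τ v) = (hfin.toFinset.card : ℝ) * nrm ρ v := by
    rw [Finset.sum_congr rfl fun τ _ => nrm_act ρ τ v, Finset.sum_const, nsmul_eq_mul]
  rw [h2] at h1
  have h0 := nrm_nonneg ρ v
  rw [norm_inv, Complex.norm_natCast]
  by_cases hc : (hfin.toFinset.card : ℝ) = 0
  · rw [hc]
    simpa using h0
  · have hpos : (0 : ℝ) < hfin.toFinset.card := lt_of_le_of_ne (Nat.cast_nonneg _) (Ne.symm hc)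
    rw [inv_mul_le_iff₀ hpos]
    exact h1

/-- the Euler polynomial -/
theorem euler_roots (ρ : Representation ℂ (E ≃ₐ[ℚ] E) V) (P : Ideal (𝓞 E)) (σ : E ≃ₐ[ℚ] E) :
    ∃ s : Multiset ℂ, s.card = Module.finrank ℂ V ∧ (∀ z ∈ s, ‖z‖ ≤ 1) ∧
      ∀ x : ℂ, eulerPoly ρ P σ x = (s.map fun z => 1 - x * z).prod := by
  obtain ⟨s, h1, h2⟩ := det_roots (ρ σ ∘ₗ invProj ρ P)
  refine ⟨s, h1, fun z hz => ?_, h2⟩
  by_cases hz0 : z = 0
  · rw [hz0, norm_zero]; exact zero_le_one
  have h3 : LinearMap.det (LinearMap.id - z⁻¹ • (ρ σ ∘ₗ invProj ρ P)) = 0 := by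
    rw [h2]
    apply Multiset.prod_eq_zero
    rw [Multiset.mem_map]
    exact ⟨z, hz, by rw [inv_mul_cancel₀ hz0, sub_self]⟩
  obtain ⟨v, hv, hv0⟩ := (Submodule.ne_bot_iff _).1
    (LinearMap.bot_lt_ker_of_det_eq_zero h3).ne'
  have h4 : v = z⁻¹ • ρ σ (invProj ρ P v) := by
    have h5 := LinearMap.mem_ker.1 hv
    rw [LinearMap.sub_apply, LinearMap.id_apply, sub_eq_zero] at h5
    exact h5
  have h5 : nrm ρ v ≤ ‖z⁻¹‖ * nrm ρ v := by
    conv_lhs => rw [h4]
    rw [nrm_smul, nrm_act]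
    exact mul_le_mul_of_nonneg_left (nrm_proj ρ P v) (norm_nonneg _)
  have h6 := nrm_pos ρ hv0
  have h7 : 1 ≤ ‖z⁻¹‖ := by
    by_contra h
    push Not at h
    nlinarith
  rw [norm_inv] at h7
  have h8 : 0 < ‖z‖ := norm_pos_iff.2 hz0
  exact (one_le_inv₀ h8).1 h7

end

end Pool.Agent.Y149.AR
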