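import Pool.Agent.Y149.AR.LogArtin
import Pool.Agent.Y149.AR.Strip
import Pool.Agent.Y922.AP.Fin2

/-!
# The solutions of `ξ(s) Λ(s) = a` for a completed Artin L-function `Λ`
-/

set_option autoImplicit false

open Filter Topology Set Complex NumberField

namespace Pool.Agent.Y149.AR

open Pool.Agent.Y922.AQ Pool.Agent.Y922.AP

/-- critical values -/
theorem crit_countable {f : ℂ → ℂ} (hf : Good f) : {a : ℂ | ∃ s, f s = a ∧ deriv f s = 0}.Countable := by
  have han : ∀ z, AnalyticAt ℂ (deriv f) z := fun z => (hf.diff.analyticAt z).deriv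
  obtain ⟨z₀, hz₀⟩ : ∃ z, deriv f z ≠ 0 := by
    obtain ⟨σ₀, L, -, hL⟩ := hf.log
    refine ⟨((σ₀ + 1 : ℝ) : ℂ), ?_⟩
    obtain ⟨h1, h2, h3⟩ := hL ((σ₀ + 1 : ℝ) : ℂ) (by simp)
    have hev : (fun z => cexp (L z)) =ᶠ[𝓝 ((σ₀ + 1 : ℝ) : ℂ)] f := by
      have hU : {s : ℂ | σ₀ < s.re} ∈ 𝓝 ((σ₀ + 1 : ℝ) : ℂ) :=
        (isOpen_lt continuous_const continuous_re).mem_nhds (by simp)
      filter_upwards [hU] with z hz
      exact (hL z hz).2.1
    have hd := (h1.differentiableAt.hasDerivAt.cexp.congr_of_eventuallyEq hev.symm).deriv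
    rw [hd]
    refine mul_ne_zero (Complex.exp_ne_zero _) fun h0 => ?_
    rw [h0, zero_re] at h3
    linarith
  have hset : {s : ℂ | deriv f s = 0}.Countable := by
    apply (HereditarilyLindelofSpace.isLindelof _).countable_of_isDiscrete
    have h1 : {s : ℂ | deriv f s = 0}ᶜ ∈ codiscrete ℂ := by
      rw [mem_codiscrete]
      intro x
      rw [compl_compl, disjoint_principal_right]
      rcases (han x).eventually_eq_zero_or_eventually_ne_zero with h | h
      · exfalso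
        have h2 : AnalyticOnNhd ℂ (deriv f) univ := fun z _ => han z
        exact hz₀ (h2.eqOn_zero_of_preconnected_of_eventuallyEq_zero isPreconnected_univ
          (mem_univ x) h (mem_univ z₀))
      · exact h
    have h2 := isDiscrete_of_codiscreteWithin (U := univ) (s := {s : ℂ | deriv f s = 0}) h1
    rwa [inter_univ] at h2
  refine (hset.image f).mono ?_
  rintro a ⟨s, h1, h2⟩
  exact ⟨s, h2, h1⟩

/-- ordinates determine the solution up to the symmetry -/
theorem same_ord {f : ℂ → ℂ} (hconj : ∀ s : ℂ, f (starRingEnd ℂ s) = starRingEnd ℂ (f s))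
    {K : Subfield ℂ} {a : ℝ} (h : ∀ (n : ℕ) (s : Fin n → ℂ), (∀ i, f (s i) = a) →
      (∀ i j, i ≠ j → s i ≠ s j ∧ s i + s j ≠ 1) → AlgebraicIndependent K s)
    {β β' γ : ℝ} (hγ : 0 < γ) (h1 : f ((β : ℂ) + (γ : ℂ) * I) = a)
    (h2 : f ((β' : ℂ) + (γ : ℂ) * I) = a) : β' = β ∨ β' = 1 - β := by
  by_contra hcon
  push Not at hcon
  obtain ⟨hne1, hne2⟩ := hcon
  have hc : ∀ x : ℝ, f ((x : ℂ) + (γ : ℂ) * I) = a → f ((x : ℂ) - (γ : ℂ) * I) = a := by
    intro x hx
    have h3 := hconj ((x : ℂ) + (γ : ℂ) * I)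
    rw [hx, conj_ofReal] at h3
    rw [← h3]
    congr 1
    simp [sub_eq_add_neg]
  have hgen : ∀ (x y : ℝ) (u v : ℂ), u.re = x → v.re = y → u.im = γ ∨ u.im = -γ →
      v.im = γ ∨ v.im = -γ → x ≠ y → x + y ≠ 1 → u ≠ v ∧ u + v ≠ 1 := by
    intro x y u v hu hv _ _ h5 h6
    constructor
    · intro h7
      apply h5
      rw [← hu, ← hv, h7]
    · intro h7
      apply h6
      have := congrArg re h7
      rw [add_re, one_re, hu, hv] at this
      exact this
  -- one of the two is off the critical line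
  wlog hoff : β' ≠ 1 / 2 generalizing β β'
  · push Not at hoff
    refine this h2 h1 (Ne.symm hne1) ?_ ?_
    · intro h5
      apply hne2
      linarith
    · intro h5
      apply hne1
      rw [hoff, h5]
  obtain ⟨s, hs⟩ : ∃ s : ℂ, s = (β : ℂ) + (γ : ℂ) * I := ⟨_, rfl⟩
  obtain ⟨u, hu⟩ : ∃ u : ℂ, u = (β' : ℂ) + (γ : ℂ) * I := ⟨_, rfl⟩
  obtain ⟨w, hw⟩ : ∃ w : ℂ, w = (β' : ℂ) - (γ : ℂ) * I := ⟨_, rfl⟩
  obtain ⟨t, ht⟩ : ∃ t : ℂ, t = (β : ℂ) - (γ : ℂ) * I := ⟨_, rfl⟩
  have fs : f s = a := by rw [hs]; exact h1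
  have fu : f u = a := by rw [hu]; exact h2
  have fw : f w = a := by rw [hw]; exact hc β' h2
  have ft : f t = a := by rw [ht]; exact hc β h1
  have rs : s.re = β := by rw [hs]; simp
  have ru : u.re = β' := by rw [hu]; simp
  have rw' : w.re = β' := by rw [hw]; simp
  have rt : t.re = β := by rw [ht]; simp
  have is : s.im = γ := by rw [hs]; simp
  have iu : u.im = γ := by rw [hu]; simp
  have iw : w.im = -γ := by rw [hw]; simp
  have it : t.im = -γ := by rw [ht]; simp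
  have e1 : β ≠ β' := Ne.symm hne1
  have e2 : β + β' ≠ 1 := fun h => hne2 (by linarith)
  have e3 : β' + β ≠ 1 := fun h => hne2 (by linarith)
  have huw : u ≠ w ∧ u + w ≠ 1 := by
    constructor
    · intro h
      have := congrArg im h
      rw [iu, iw] at this
      linarith
    · intro h
      have := congrArg re h
      rw [add_re, ru, rw', one_re] at this
      apply hoff
      linarith
  have hsu : s ≠ u ∧ s + u ≠ 1 := hgen β β' s u rs ru (Or.inl is) (Or.inl iu) e1 e2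
  have hsw : s ≠ w ∧ s + w ≠ 1 := hgen β β' s w rs rw' (Or.inl is) (Or.inr iw) e1 e2
  have htu : t ≠ u ∧ t + u ≠ 1 := hgen β β' t u rt ru (Or.inr it) (Or.inl iu) e1 e2
  have htw : t ≠ w ∧ t + w ≠ 1 := hgen β β' t w rt rw' (Or.inr it) (Or.inr iw) e1 e2
  have sym : ∀ {x y : ℂ}, (x ≠ y ∧ x + y ≠ 1) → (y ≠ x ∧ y + x ≠ 1) := fun h =>
    ⟨h.1.symm, by rw [add_comm]; exact h.2⟩
  by_cases hβ : β = 1 / 2
  · -- three points
    have hind := h 3 ![s, u, w] (by
      intro i
      fin_cases i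
      · exact fs
      · exact fu
      · exact fw) (by
      intro i j hij
      fin_cases i <;> fin_cases j
      · exact absurd rfl hij
      · exact hsu
      · exact hsw
      · exact sym hsu
      · exact absurd rfl hij
      · exact huw
      · exact sym hsw
      · exact sym huw
      · exact absurd rfl hij)
    have hP := hind.eq_zero_of_aeval_eq_zero
      (2 * MvPolynomial.X 0 - 1 - MvPolynomial.X 1 + MvPolynomial.X 2) (by
        rw [map_add, map_sub, map_sub, map_mul, map_one, MvPolynomial.aeval_X, MvPolynomial.aeval_X,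
          MvPolynomial.aeval_X, map_ofNat]
        show 2 * s - 1 - u + w = 0
        rw [hs, hu, hw, hβ]
        push_cast
        ring)
    have hv := congrArg (MvPolynomial.eval (fun _ => (0 : K))) hP
    rw [map_add, map_sub, map_sub, map_mul, map_one, MvPolynomial.eval_X, MvPolynomial.eval_X,
      MvPolynomial.eval_X, map_zero] at hv
    have h0 : (-1 : K) = 0 := by linear_combination hv
    exact one_ne_zero (neg_eq_zero.1 h0)
  · have hst : s ≠ t ∧ s + t ≠ 1 := by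
      constructor
      · intro h
        have := congrArg im h
        rw [is, it] at this
        linarith
      · intro h
        have := congrArg re h
        rw [add_re, rs, rt, one_re] at this
        apply hβ
        linarith
    have hind := h 4 ![s, t, u, w] (by
      intro i
      fin_cases i
      · exact fs
      · exact ft
      · exact fu
      · exact fw) (by
      intro i j hij
      fin_cases i <;> fin_cases j
      · exact absurd rfl hij
      · exact hst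
      · exact hsu
      · exact hsw
      · exact sym hst
      · exact absurd rfl hij
      · exact htu
      · exact htw
      · exact sym hsu
      · exact sym htu
      · exact absurd rfl hij
      · exact huw
      · exact sym hsw
      · exact sym htw
      · exact sym huw
      · exact absurd rfl hij)
    have hP := hind.eq_zero_of_aeval_eq_zero
      (MvPolynomial.X 0 - MvPolynomial.X 1 - MvPolynomial.X 2 + MvPolynomial.X 3) (by
        rw [map_add, map_sub, map_sub, MvPolynomial.aeval_X, MvPolynomial.aeval_X,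
          MvPolynomial.aeval_X, MvPolynomial.aeval_X]
        show s - t - u + w = 0
        rw [hs, hu, hw, ht]
        ring)
    have hv := congrArg (MvPolynomial.eval (fun i : Fin 4 => if i = 0 then (1 : K) else 0)) hP
    rw [map_add, map_sub, map_sub, MvPolynomial.eval_X, MvPolynomial.eval_X,
      MvPolynomial.eval_X, MvPolynomial.eval_X, map_zero] at hv
    have h0 : (1 : K) = 0 := by simpa using hv
    exact one_ne_zero h0

section

variable {E : Type} [Field E] [NumberField E] {V : Type} [AddCommGroup V] [Module ℂ V]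
  [FiniteDimensional ℂ V] {ρ : Representation ℂ (E ≃ₐ[ℚ] E) V} {Λ : ℂ → ℂ}

theorem good_lambda (h : IsCompleted ρ Λ) (hV : 0 < Module.finrank ℂ V) : Good Λ := by
  obtain ⟨N, a, b, F, hN, hab, hF, hL⟩ := h.formula
  obtain ⟨W, hW⟩ := h.fe
  obtain ⟨A, m, hA⟩ := h.order
  refine good_of hN (by omega) (logBd_of_isArtinL hF) hL h.entire (fun _ => ⟨A, m, fun s _ => hA s⟩)
    ⟨W, fun s => ?_⟩
  rw [h.real, RCLike.norm_conj, hW, norm_mul]

/-- the function `ξ(s) Λ(s)` -/
noncomputable def XL (Λ : ℂ → ℂ) (s : ℂ) : ℂ := xi s * Λ s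

theorem good_XL (h : IsCompleted ρ Λ) (hV : 0 < Module.finrank ℂ V) : Good (XL Λ) :=
  Y529.AQ.t_MUL _ _ good_xi (good_lambda h hV)

theorem fe_XL (h : IsCompleted ρ Λ) : ∃ c : ℂ, ∀ s, XL Λ (1 - s) = c * XL Λ s := by
  obtain ⟨W, hW⟩ := h.fe
  refine ⟨W, fun s => ?_⟩
  rw [XL, XL, Y907.AP.t_SYM.1, hW]
  ring

theorem conj_XL (h : IsCompleted ρ Λ) (s : ℂ) :
    XL Λ (starRingEnd ℂ s) = starRingEnd ℂ (XL Λ s) := by
  rw [XL, XL, map_mul, Y907.AP.t_SYM.2.1, h.real]

theorem zero_XL (Λ : ℂ → ℂ) : ∃ t : ℝ, 0 < t ∧ XL Λ (1 / 2 + t * Complex.I) = 0 := by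
  obtain ⟨t, ht, h⟩ := Y388.AP.t_ZERO
  exact ⟨t, ht, by rw [XL, h, zero_mul]⟩

theorem fin_one (h : IsCompleted ρ Λ) (hV : 0 < Module.finrank ℂ V) (K : Subfield ℂ)
    (hK : Countable K) :
    ∃ X : Set ℂ, X.Countable ∧ (∀ a : ℂ, a ∉ X → Transcendental K a ∧
      (∀ s, XL Λ s = a → deriv (XL Λ) s ≠ 0) ∧
      ∀ (n : ℕ) (s : Fin n → ℂ), (∀ i, XL Λ (s i) = a) →
        (∀ i j, i ≠ j → s i ≠ s j ∧ s i + s j ≠ 1) → AlgebraicIndependent (adj K a) s) ∧
      ∀ a : ℝ, (a : ℂ) ∉ X → AlgebraicIndependent (adj K a)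
        (fun γ : {γ : ℝ // 0 < γ ∧ ∃ β : ℝ, XL Λ ((β : ℂ) + (γ : ℂ) * Complex.I) = (a : ℂ)} =>
          ((γ.1 : ℝ) : ℂ)) ∧
        ∀ β β' γ : ℝ, 0 < γ → XL Λ ((β : ℂ) + (γ : ℂ) * Complex.I) = a →
          XL Λ ((β' : ℂ) + (γ : ℂ) * Complex.I) = a → β' = β ∨ β' = 1 - β := by
  obtain ⟨X, hX, h1, h2⟩ := finalL (good_XL h hV) (fe_XL h) (conj_XL h) (zero_XL Λ) K hK
  refine ⟨X ∪ {a : ℂ | ∃ s, XL Λ s = a ∧ deriv (XL Λ) s = 0}, hX.union (crit_countable (good_XL h hV)),
    fun a ha => ?_, fun a ha => ?_⟩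
  · have ha1 : a ∉ X := fun h => ha (Or.inl h)
    refine ⟨(h1 a ha1).1, fun s hs hd => ha (Or.inr ⟨s, hs, hd⟩), (h1 a ha1).2⟩
  · have ha1 : (a : ℂ) ∉ X := fun h => ha (Or.inl h)
    exact ⟨h2 a ha1, fun β β' γ hγ h3 h4 => same_ord (conj_XL h) (h1 a ha1).2 hγ h3 h4⟩

/-- the branches of the inverse function -/
theorem fin_fun (h : IsCompleted ρ Λ) (hV : 0 < Module.finrank ℂ V) (n : ℕ)
    (P : MvPolynomial (Option (Fin n)) ℂ) (hP : P ≠ 0) (a₀ : ℂ) (g : Fin n → ℂ → ℂ)
    (hg : ∀ i, AnalyticAt ℂ (g i) a₀) (hXg : ∀ i, ∀ᶠ a in 𝓝 a₀, XL Λ (g i a) = a)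
    (hinj : ∀ i j, i ≠ j → g i a₀ ≠ g j a₀ ∧ g i a₀ + g j a₀ ≠ 1) :
    ∀ᶠ a in 𝓝[≠] a₀, MvPolynomial.eval (fun o : Option (Fin n) => o.elim a fun i => g i a) P ≠ 0 := by
  refine fun_of (f := XL Λ) (fun K hK => ?_) n P hP a₀ g hg hXg hinj
  obtain ⟨X, hX, h1, -⟩ := finalL (good_XL h hV) (fe_XL h) (conj_XL h) (zero_XL Λ) K hK
  exact ⟨X, hX, fun a ha n s hs hd =>
    (Y388.AP.t_TOW K a (Fin n) s).mpr ⟨(h1 a ha).1, (h1 a ha).2 n s hs hd⟩⟩

end

end Pool.Agent.Y149.AR
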