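import Pool.Agent.Y922.AP.Stm3
import Pool.Agent.Y312.AQ.ChiStrip
import Pool.Agent.Y497.AQ.ChiLog

/-!
# Completed L-functions with several gamma factors are good functions
-/

set_option autoImplicit false

open Filter Topology Set Complex

namespace Pool.Agent.Y149.AR

open Pool.Agent.Y922.AQ Pool.Agent.Y688.AP

/-- the conductor factor, the gamma factors and the Dirichlet series -/
noncomputable def prodForm (N a b : ℕ) (D : ℂ → ℂ) (s : ℂ) : ℂ :=
  (N : ℂ) ^ (s / 2) * Gammaℝ s ^ a * Gammaℝ (s + 1) ^ b * D s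

/-- the logarithm of a Dirichlet series near infinity -/
def LogBd (D : ℂ → ℂ) : Prop :=
  ∃ (ell : ℂ → ℂ) (M : ℝ), ∀ s : ℂ, 3 / 2 < s.re →
    AnalyticAt ℂ ell s ∧ cexp (ell s) = D s ∧ ‖ell s‖ ≤ M

/-- the logarithm of the real gamma factor -/
theorem gammaLog (M : ℝ) : ∃ (σ : ℝ) (G : ℂ → ℂ), 1 ≤ σ ∧ ∀ s : ℂ, σ < s.re →
    AnalyticAt ℂ G s ∧ cexp (G s) = Gammaℝ s ∧ M ≤ (deriv G s).re := by
  obtain ⟨σ, hσ1, hσ⟩ := psi_big (2 * (M + |Real.log Real.pi| / 2))
  have hU : Convex ℝ {s : ℂ | 2 * σ < s.re} := convex_halfSpace_re_gt _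
  have hUo : IsOpen {s : ℂ | 2 * σ < s.re} := isOpen_lt continuous_const continuous_re
  have hne : ∀ s ∈ {s : ℂ | 2 * σ < s.re}, Gammaℝ s ≠ 0 := by
    intro s hs
    have hs' : 2 * σ < s.re := hs
    exact Gammaℝ_ne_zero_of_re_pos (by linarith)
  have hpi0 : (Real.pi : ℂ) ≠ 0 := by exact_mod_cast Real.pi_ne_zero
  have hre2 : ∀ s : ℂ, (s / 2).re = s.re / 2 := fun s => by simp
  have hder : ∀ s ∈ {s : ℂ | 2 * σ < s.re}, HasDerivAt Gammaℝ
      (Gammaℝ s * (-(Complex.log Real.pi) / 2 + logDeriv Gamma (s / 2) / 2)) s := by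
    intro s hs
    have hs' : 2 * σ < s.re := hs
    have hG : Gamma (s / 2) ≠ 0 := by
      apply Gamma_ne_zero_of_re_pos
      rw [hre2]
      linarith
    have d3 : HasDerivAt (fun z : ℂ => (Real.pi : ℂ) ^ (-z / 2))
        ((Real.pi : ℂ) ^ (-s / 2) * (-(Complex.log Real.pi) / 2)) s := by
      have h := (((hasDerivAt_id s).neg.div_const 2).const_cpow
        (c := (Real.pi : ℂ)) (Or.inl hpi0))
      refine h.congr_deriv ?_
      show (Real.pi : ℂ) ^ (-s / 2) * Complex.log Real.pi * (-1 / 2) = _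
      ring
    have d4 : HasDerivAt (fun z : ℂ => Gamma (z / 2))
        (Gamma (s / 2) * (logDeriv Gamma (s / 2) / 2)) s := by
      have hGd : DifferentiableAt ℂ Gamma (s / 2) := by
        apply differentiableAt_Gamma
        intro m h
        have h2 := congrArg re h
        rw [hre2, neg_re, natCast_re] at h2
        have : (0 : ℝ) ≤ m := Nat.cast_nonneg m
        linarith
      have h := HasDerivAt.comp s hGd.hasDerivAt ((hasDerivAt_id s).div_const 2)
      refine h.congr_deriv ?_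
      rw [logDeriv_apply]
      field_simp
    have d5 := ld_mul d3 d4
    have e : Gammaℝ = fun z : ℂ => (Real.pi : ℂ) ^ (-z / 2) * Gamma (z / 2) := by
      funext z
      exact Gammaℝ_def z
    rw [e]
    exact d5
  obtain ⟨G, hGd, hG⟩ := Helper242.RK.exists_log hU hUo ⟨((2 * σ + 1 : ℝ) : ℂ), by
    show 2 * σ < (((2 * σ + 1 : ℝ) : ℂ)).re
    rw [ofReal_re]; linarith⟩ (fun s hs => (hder s hs).differentiableAt.differentiableWithinAt) hne
  refine ⟨2 * σ, G, by linarith, fun s hs => ?_⟩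
  have hsU : s ∈ {s : ℂ | 2 * σ < s.re} := hs
  have hnhds : {s : ℂ | 2 * σ < s.re} ∈ 𝓝 s := hUo.mem_nhds hsU
  have hLa : AnalyticAt ℂ G s := hGd.analyticAt hnhds
  refine ⟨hLa, hG s hsU, ?_⟩
  have hev2 : (fun z => cexp (G z)) =ᶠ[𝓝 s] Gammaℝ := by
    filter_upwards [hnhds] with z hz
    exact hG z hz
  have d9 : HasDerivAt (fun z => cexp (G z)) (cexp (G s) * deriv G s) s :=
    hLa.differentiableAt.hasDerivAt.cexp
  have key := d9.unique ((hder s hsU).congr_of_eventuallyEq hev2)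
  rw [hG s hsU] at key
  have key2 := mul_left_cancel₀ (hne s hsU) key
  rw [key2]
  have hσs : σ < (s / 2).re := by rw [hre2]; linarith
  have r1 := hσ (s / 2) hσs
  have r5 : (-(Complex.log Real.pi) / 2).re = -(Real.log Real.pi) / 2 := by
    rw [← ofReal_log Real.pi_pos.le]
    rw [show (-((Real.log Real.pi : ℝ) : ℂ) / 2) = ((-(Real.log Real.pi) / 2 : ℝ) : ℂ) by push_cast; rfl,
      ofReal_re]
  have r6 : (logDeriv Gamma (s / 2) / 2).re = (logDeriv Gamma (s / 2)).re / 2 := by simp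
  have r8 := le_abs_self (Real.log Real.pi)
  rw [add_re, r5, r6]
  linarith

/-- the logarithm of the completed function -/
theorem log_of {N a b : ℕ} (hN : 0 < N) (hab : 1 ≤ a + b) {D Λ : ℂ → ℂ} (hD : LogBd D)
    (heq : ∀ s : ℂ, 1 < s.re → Λ s = prodForm N a b D s) :
    ∃ (σ₀ : ℝ) (L : ℂ → ℂ), 1 ≤ σ₀ ∧ ∀ s : ℂ, σ₀ < s.re →
      AnalyticAt ℂ L s ∧ cexp (L s) = Λ s ∧ 1 ≤ (deriv L s).re := by
  obtain ⟨ell, M, hell⟩ := hD
  have hM : 0 ≤ M := (norm_nonneg _).trans (hell 2 (by norm_num)).2.2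
  obtain ⟨σ, G, hσ1, hG⟩ := gammaLog (1 + 2 * M)
  have hN0 : (N : ℂ) ≠ 0 := by exact_mod_cast hN.ne'
  refine ⟨σ + 2, fun s => s / 2 * Complex.log N + a * G s + b * G (s + 1) + ell s, by linarith,
    fun s hs => ?_⟩
  have h1 := hG s (by linarith)
  have h2 := hG (s + 1) (by rw [add_re, one_re]; linarith)
  have h3 := hell s (by linarith)
  have hsh : AnalyticAt ℂ (fun z => G (z + 1)) s :=
    AnalyticAt.comp (f := fun z : ℂ => z + 1) (g := G) h2.1 (by fun_prop)
  have a1 : AnalyticAt ℂ (fun s : ℂ => s / 2 * Complex.log N) s := by fun_prop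
  have a2 : AnalyticAt ℂ (fun s : ℂ => (a : ℂ) * G s) s := analyticAt_const.mul h1.1
  have a3 : AnalyticAt ℂ (fun s : ℂ => (b : ℂ) * G (s + 1)) s := analyticAt_const.mul hsh
  refine ⟨((a1.add a2).add a3).add h3.1, ?_, ?_⟩
  · rw [heq s (by linarith)]
    unfold prodForm
    rw [exp_add, exp_add, exp_add, ← h3.2.1, ← h1.2.1, ← h2.2.1, ← exp_nat_mul, ← exp_nat_mul]
    congr 3
    rw [cpow_def_of_ne_zero hN0]
    ring_nf
  · have d1 : HasDerivAt (fun s : ℂ => s / 2 * Complex.log N) (1 / 2 * Complex.log N) s :=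
      ((hasDerivAt_id s).div_const 2).mul_const _
    have d2 : HasDerivAt (fun s : ℂ => (a : ℂ) * G s) (a * deriv G s) s :=
      h1.1.differentiableAt.hasDerivAt.const_mul _
    have d3' : HasDerivAt (fun z => G (z + 1)) (deriv G (s + 1)) s := by
      have h := HasDerivAt.comp s h2.1.differentiableAt.hasDerivAt ((hasDerivAt_id s).add_const (1 : ℂ))
      rw [mul_one] at h
      exact h
    have d3 : HasDerivAt (fun s : ℂ => (b : ℂ) * G (s + 1)) (b * deriv G (s + 1)) s :=
      d3'.const_mul _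
    have d4 := h3.1.differentiableAt.hasDerivAt
    have hd : deriv (fun s => s / 2 * Complex.log N + a * G s + b * G (s + 1) + ell s) s =
        1 / 2 * Complex.log N + a * deriv G s + b * deriv G (s + 1) + deriv ell s :=
      (((d1.add d2).add d3).add d4).deriv
    rw [hd]
    have e4 : ‖deriv ell s‖ ≤ M / (1 / 2) := by
      apply Complex.norm_deriv_le_of_forall_mem_sphere_norm_le (by norm_num)
      · have hdo : DifferentiableOn ℂ ell (Metric.closedBall s (1 / 2)) := by
          intro z hz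
          have hz1 : ‖z - s‖ ≤ 1 / 2 := by rwa [Metric.mem_closedBall, dist_eq_norm] at hz
          have hz2 := (abs_le.1 ((abs_re_le_norm (z - s)).trans hz1)).1
          rw [sub_re] at hz2
          exact (hell z (by linarith)).1.differentiableAt.differentiableWithinAt
        exact hdo.diffContOnCl_ball Subset.rfl
      · intro z hz
        have hz1 : ‖z - s‖ = 1 / 2 := by rwa [Metric.mem_sphere, dist_eq_norm] at hz
        have hz2 := (abs_le.1 ((abs_re_le_norm (z - s)).trans hz1.le)).1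
        rw [sub_re] at hz2
        exact (hell z (by linarith)).2.2
    have e5 : -(2 * M) ≤ (deriv ell s).re := by
      have := (abs_le.1 ((abs_re_le_norm (deriv ell s)).trans e4)).1
      linarith
    have e1 : 0 ≤ (1 / 2 * Complex.log N : ℂ).re := by
      have h1 : (1 / 2 * Complex.log N : ℂ) = ((Real.log N / 2 : ℝ) : ℂ) := by
        rw [← Complex.ofReal_natCast, ← ofReal_log (Nat.cast_nonneg N)]
        push_cast
        ring
      rw [h1, ofReal_re]
      have h2 : (1 : ℝ) ≤ N := by exact_mod_cast hN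
      have := Real.log_nonneg h2
      linarith
    have e2 : (a : ℝ) * (1 + 2 * M) ≤ ((a : ℂ) * deriv G s).re := by
      have : ((a : ℂ) * deriv G s).re = a * (deriv G s).re := by
        rw [← Complex.ofReal_natCast, re_ofReal_mul]
      rw [this]
      exact mul_le_mul_of_nonneg_left h1.2.2 (Nat.cast_nonneg a)
    have e3 : (b : ℝ) * (1 + 2 * M) ≤ ((b : ℂ) * deriv G (s + 1)).re := by
      have : ((b : ℂ) * deriv G (s + 1)).re = b * (deriv G (s + 1)).re := by
        rw [← Complex.ofReal_natCast, re_ofReal_mul]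
      rw [this]
      exact mul_le_mul_of_nonneg_left h2.2.2 (Nat.cast_nonneg b)
    have e6 : (1 : ℝ) ≤ a + b := by exact_mod_cast hab
    rw [add_re, add_re, add_re]
    nlinarith

end Pool.Agent.Y149.AR
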