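import Pool.Agent.Y149.AR.Euler
import Pool.Agent.Y149.AR.Good

/-!
# The logarithm of an Artin L-function in a right half-plane
-/

set_option autoImplicit false

open Filter Topology Set Complex NumberField

namespace Pool.Agent.Y149.AR

variable {E : Type} [Field E] [NumberField E] {V : Type} [AddCommGroup V] [Module ℂ V]
  [FiniteDimensional ℂ V]

theorem logBd_of_isArtinL {ρ : Representation ℂ (E ≃ₐ[ℚ] E) V} {F : ℂ → ℂ} (h : IsArtinL ρ F) :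
    LogBd F := by
  obtain ⟨P, σ, -, hF⟩ := h
  obtain ⟨n, hn⟩ : ∃ n : ℝ, n = Module.finrank ℂ V := ⟨_, rfl⟩
  have hn0 : 0 ≤ n := by rw [hn]; positivity
  have h1 : ∀ p : Nat.Primes, ∃ g : ℂ → ℂ, ∀ x : ℂ, ‖x‖ ≤ 1 / 2 → AnalyticAt ℂ g x ∧
      cexp (g x) = (eulerPoly ρ (P p) (σ p) x)⁻¹ ∧ ‖g x‖ ≤ n * (3 / 2 * ‖x‖) := by
    intro p
    obtain ⟨m, hm1, hm2, hm3⟩ := euler_roots ρ (P p) (σ p)
    obtain ⟨g, hg⟩ := multiset_log m hm2
    refine ⟨g, fun x hx => ?_⟩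
    obtain ⟨h1, h2, h3⟩ := hg x hx
    rw [hm1, ← hn] at h3
    exact ⟨h1, by rw [h2, hm3], h3⟩
  choose g hg using h1
  have hp1 : ∀ p : Nat.Primes, (1 : ℝ) ≤ ((p : ℕ) : ℝ) := fun p => by exact_mod_cast p.2.one_lt.le
  have hx : ∀ (p : Nat.Primes) (s : ℂ), 3 / 2 < s.re →
      ‖((p : ℕ) : ℂ) ^ (-s)‖ ≤ ((p : ℕ) : ℝ) ^ (-(3 / 2) : ℝ) := by
    intro p s hs
    rw [Complex.norm_natCast_cpow_of_pos p.2.pos, neg_re]
    exact Real.rpow_le_rpow_of_exponent_le (hp1 p) (by linarith)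
  have hx2 : ∀ (p : Nat.Primes) (s : ℂ), 3 / 2 < s.re → ‖((p : ℕ) : ℂ) ^ (-s)‖ ≤ 1 / 2 := by
    intro p s hs
    refine (hx p s hs).trans ?_
    calc ((p : ℕ) : ℝ) ^ (-(3 / 2) : ℝ) ≤ ((p : ℕ) : ℝ) ^ (-1 : ℝ) :=
          Real.rpow_le_rpow_of_exponent_le (hp1 p) (by norm_num)
      _ = ((p : ℕ) : ℝ)⁻¹ := Real.rpow_neg_one _
      _ ≤ 1 / 2 := by
        rw [one_div]
        have : (2 : ℝ) ≤ ((p : ℕ) : ℝ) := by exact_mod_cast p.2.two_le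
        gcongr
  have hus : Summable fun p : Nat.Primes => n * (3 / 2 * ((p : ℕ) : ℝ) ^ (-(3 / 2) : ℝ)) :=
    ((Nat.Primes.summable_rpow.2 (by norm_num)).mul_left _).mul_left _
  have hle : ∀ (p : Nat.Primes) (s : ℂ), s ∈ {s : ℂ | 3 / 2 < s.re} →
      ‖g p (((p : ℕ) : ℂ) ^ (-s))‖ ≤ n * (3 / 2 * ((p : ℕ) : ℝ) ^ (-(3 / 2) : ℝ)) := by
    intro p s hs
    refine ((hg p _ (hx2 p s hs)).2.2).trans ?_
    have := hx p s hs
    gcongr
  have hUo : IsOpen {s : ℂ | 3 / 2 < s.re} := isOpen_lt continuous_const continuous_re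
  have hdiff : ∀ p : Nat.Primes, DifferentiableOn ℂ (fun s : ℂ => g p (((p : ℕ) : ℂ) ^ (-s)))
      {s : ℂ | 3 / 2 < s.re} := by
    intro p s hs
    have h1 := (hg p _ (hx2 p s hs)).1.differentiableAt
    have hp0 : ((p : ℕ) : ℂ) ≠ 0 := by exact_mod_cast p.2.ne_zero
    have h2 : DifferentiableAt ℂ (fun s : ℂ => ((p : ℕ) : ℂ) ^ (-s)) s :=
      differentiableAt_id.neg.const_cpow (Or.inl hp0)
    exact (DifferentiableAt.comp s h1 h2).differentiableWithinAt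
  have hd := differentiableOn_tsum_of_summable_norm hus hdiff hUo hle
  refine ⟨fun s => ∑' p : Nat.Primes, g p (((p : ℕ) : ℂ) ^ (-s)),
    ∑' p : Nat.Primes, n * (3 / 2 * ((p : ℕ) : ℝ) ^ (-(3 / 2) : ℝ)), fun s hs => ⟨?_, ?_, ?_⟩⟩
  · exact hd.analyticAt (hUo.mem_nhds hs)
  · have hs1 : Summable fun p : Nat.Primes => g p (((p : ℕ) : ℂ) ^ (-s)) :=
      Summable.of_norm_bounded hus fun p => hle p s hs
    have hp := hs1.hasSum.cexp
    have he : (cexp ∘ fun p : Nat.Primes => g p (((p : ℕ) : ℂ) ^ (-s))) =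
        fun p : Nat.Primes => (eulerPoly ρ (P p) (σ p) (((p : ℕ) : ℂ) ^ (-s)))⁻¹ := by
      funext p
      exact (hg p _ (hx2 p s hs)).2.1
    rw [he] at hp
    exact hp.unique (hF s (by linarith))
  · exact tsum_of_norm_bounded hus.hasSum fun p => hle p s hs

end Pool.Agent.Y149.AR
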